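import Pool.Agent.Q248.BR.FS

/-! A local form of Chang's theorem: the large spectrum of a subset `T` of `X` is spanned by few
characters and by characters with a large Fourier coefficient on `X`. -/

set_option autoImplicit false

namespace Pool.Agent.Q248.BR

open Finset
open scoped Pointwise
open Pool.Agent.TH858.GP (ψ ψ_add ψ_zero ψ_norm ψ_neg wt wt_nonneg sum_wt norm_ψ_sub_one_add
  norm_ψ_sub_one_neg norm_ψ_sub_one_sum)

variable {N : ℕ} [NeZero N]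

/-- the set `Λ` is dissociated on `X` -/
def Diss (X : Finset (ZMod N)) (τ : ℝ) (Λ : Finset (ZMod N)) : Prop :=
  ∀ t ⊆ Λ, ∀ u ⊆ Λ, Disjoint t u → (t ∪ u).Nonempty →
    ‖∑ y ∈ X, ψ ((∑ l ∈ t, l - ∑ l ∈ u, l) * y)‖ ≤ τ * X.card

lemma prod_le_pow_real {ι : Type*} (t : Finset ι) (f : ι → ℝ) (c : ℝ) (h0 : ∀ l ∈ t, 0 ≤ f l)
    (h1 : ∀ l ∈ t, f l ≤ c) : ∏ l ∈ t, f l ≤ c ^ t.card := by
  rw [← prod_const]
  exact prod_le_prod h0 h1

/-- the mean of a Riesz product -/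
lemma riesz (X Λ : Finset (ZMod N)) (τ : ℝ) (hτ : 0 ≤ τ) (hΛ : Diss X τ Λ) (b : ℝ) (hb0 : 0 ≤ b)
    (hb1 : b ≤ 1) (c : ZMod N → ℂ) (hc : ∀ l, ‖c l‖ ≤ 1) :
    ∑ x ∈ X, ∏ l ∈ Λ, (1 + b * (c l * ψ (l * x)).re) ≤ X.card * (1 + 2 ^ Λ.card * τ) := by
  classical
  obtain ⟨p, hp⟩ : ∃ p : ZMod N → ℂ, p = fun l => (b / 2 : ℝ) * c l := ⟨_, rfl⟩
  obtain ⟨q, hq⟩ : ∃ q : ZMod N → ℂ, q = fun l => (b / 2 : ℝ) * (starRingEnd ℂ) (c l) := ⟨_, rfl⟩
  have hpn : ∀ l, ‖p l‖ ≤ 1 / 2 := fun l => by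
    rw [hp]
    simp only [norm_mul, Complex.norm_real, Real.norm_eq_abs]
    rw [abs_of_nonneg (by positivity)]
    have := hc l
    nlinarith [norm_nonneg (c l)]
  have hqn : ∀ l, ‖q l‖ ≤ 1 / 2 := fun l => by
    rw [hq]
    simp only [norm_mul, Complex.norm_real, Real.norm_eq_abs, Complex.norm_conj]
    rw [abs_of_nonneg (by positivity)]
    have := hc l
    nlinarith [norm_nonneg (c l)]
  have hterm : ∀ l x : ZMod N, ((1 + b * (c l * ψ (l * x)).re : ℝ) : ℂ) =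
      1 + (p l * ψ (l * x) + q l * ψ (-(l * x))) := by
    intro l x
    have h1 : ((c l * ψ (l * x)).re : ℂ) = (c l * ψ (l * x) + (starRingEnd ℂ) (c l * ψ (l * x))) / 2 := by
      rw [Complex.add_conj]
      push_cast
      ring
    push_cast
    rw [h1, map_mul, ← ψ_neg, hp, hq]
    push_cast
    ring
  obtain ⟨K, hK⟩ : ∃ K : Finset (ZMod N) → Finset (ZMod N) → ℂ,
      K = fun s t => (∏ l ∈ t, p l) * ∏ l ∈ s \ t, q l := ⟨_, rfl⟩
  have hexp : ((∑ x ∈ X, ∏ l ∈ Λ, (1 + b * (c l * ψ (l * x)).re) : ℝ) : ℂ) =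
      ∑ s ∈ Λ.powerset, ∑ t ∈ s.powerset, K s t *
        ∑ x ∈ X, ψ ((∑ l ∈ t, l - ∑ l ∈ s \ t, l) * x) := by
    push_cast
    have e1 : ∀ x ∈ X, ∏ l ∈ Λ, (1 + (b : ℂ) * ((c l * ψ (l * x)).re : ℂ)) =
        ∑ s ∈ Λ.powerset, ∑ t ∈ s.powerset, K s t * ψ ((∑ l ∈ t, l - ∑ l ∈ s \ t, l) * x) := by
      intro x _
      have e2 : ∀ l ∈ Λ, (1 + (b : ℂ) * ((c l * ψ (l * x)).re : ℂ)) =
          (p l * ψ (l * x) + q l * ψ (-(l * x))) + 1 := by
        intro l _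
        have := hterm l x
        push_cast at this
        rw [this]
        ring
      rw [prod_congr rfl e2, prod_add_one]
      refine sum_congr rfl fun s _ => ?_
      rw [prod_add]
      refine sum_congr rfl fun t _ => ?_
      rw [prod_mul_distrib, prod_mul_distrib, ← ψ_sum, ← ψ_sum, hK]
      have e3 : (∑ l ∈ t, l - ∑ l ∈ s \ t, l) * x = ∑ l ∈ t, l * x + ∑ l ∈ s \ t, -(l * x) := by
        rw [sum_neg_distrib, ← sum_mul, ← sum_mul]
        ring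
      rw [e3, ψ_add]
      ring
    rw [sum_congr rfl e1, sum_comm]
    refine sum_congr rfl fun s _ => ?_
    rw [sum_comm]
    refine sum_congr rfl fun t _ => ?_
    rw [mul_sum]
  have hKn : ∀ s, ∀ t ⊆ s, ‖K s t‖ ≤ (1 / 2) ^ s.card := by
    intro s t ht
    rw [hK]
    simp only [norm_mul, norm_prod]
    have e1 : ∏ l ∈ t, ‖p l‖ ≤ (1 / 2) ^ t.card :=
      prod_le_pow_real t _ _ (fun l _ => norm_nonneg _) fun l _ => hpn l
    have e2 : ∏ l ∈ s \ t, ‖q l‖ ≤ (1 / 2) ^ (s \ t).card :=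
      prod_le_pow_real _ _ _ (fun l _ => norm_nonneg _) fun l _ => hqn l
    have e3 : t.card + (s \ t).card = s.card := by
      rw [card_sdiff_of_subset ht]
      have := card_le_card ht
      omega
    calc (∏ l ∈ t, ‖p l‖) * ∏ l ∈ s \ t, ‖q l‖ ≤ (1 / 2) ^ t.card * (1 / 2) ^ (s \ t).card :=
          mul_le_mul e1 e2 (prod_nonneg fun _ _ => norm_nonneg _) (by positivity)
      _ = _ := by rw [← pow_add, e3]
  have hne : ∀ s ∈ Λ.powerset.erase ∅, ‖∑ t ∈ s.powerset, K s t *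
      ∑ x ∈ X, ψ ((∑ l ∈ t, l - ∑ l ∈ s \ t, l) * x)‖ ≤ τ * X.card := by
    intro s hs
    rw [mem_erase, mem_powerset] at hs
    refine (norm_sum_le _ _).trans ?_
    calc _ ≤ ∑ _t ∈ s.powerset, (1 / 2) ^ s.card * (τ * X.card) := by
          refine sum_le_sum fun t ht => ?_
          rw [mem_powerset] at ht
          rw [norm_mul]
          apply mul_le_mul (hKn s t ht) _ (norm_nonneg _) (by positivity)
          refine hΛ t (ht.trans hs.2) (s \ t) (sdiff_subset.trans hs.2) disjoint_sdiff ?_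
          rw [union_sdiff_of_subset ht]
          exact nonempty_iff_ne_empty.2 hs.1
      _ = τ * X.card := by
          rw [sum_const, card_powerset, nsmul_eq_mul]
          push_cast
          rw [← mul_assoc, ← mul_pow]
          norm_num
  have hfin : ‖((∑ x ∈ X, ∏ l ∈ Λ, (1 + b * (c l * ψ (l * x)).re) : ℝ) : ℂ)‖ ≤
      X.card * (1 + 2 ^ Λ.card * τ) := by
    rw [hexp, ← Finset.add_sum_erase _ _ (empty_mem_powerset Λ)]
    refine (norm_add_le _ _).trans ?_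
    have e1 : ‖∑ t ∈ (∅ : Finset (ZMod N)).powerset, K ∅ t *
        ∑ x ∈ X, ψ ((∑ l ∈ t, l - ∑ l ∈ ∅ \ t, l) * x)‖ ≤ X.card := by
      rw [powerset_empty, sum_singleton, hK]
      simp
    have e2 : ‖∑ s ∈ Λ.powerset.erase ∅, ∑ t ∈ s.powerset, K s t *
        ∑ x ∈ X, ψ ((∑ l ∈ t, l - ∑ l ∈ s \ t, l) * x)‖ ≤ 2 ^ Λ.card * (τ * X.card) := by
      refine (norm_sum_le _ _).trans ((sum_le_sum hne).trans ?_)
      rw [sum_const, nsmul_eq_mul]
      apply mul_le_mul_of_nonneg_right _ (by positivity)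
      have : (Λ.powerset.erase ∅).card ≤ 2 ^ Λ.card := by
        rw [← card_powerset]
        exact card_erase_le
      exact_mod_cast this
    linarith
  rw [Complex.norm_real] at hfin
  exact (le_abs_self _).trans hfin

/-- A dissociated set of characters with large Fourier coefficients is small. -/
lemma chang (X T Λ : Finset (ZMod N)) (hTX : T ⊆ X) (hT : T.Nonempty) (M : ℝ)
    (hM : (X.card : ℝ) ≤ M * T.card) (τ : ℝ) (hτ : 0 ≤ τ) (hΛ : Diss X τ Λ)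
    (hsmall : 2 ^ Λ.card * τ ≤ 1) (hspec : ∀ l ∈ Λ, (T.card : ℝ) ^ 2 / 4 ≤ wt T l) :
    (Λ.card : ℝ) ≤ 8 * Real.log (2 * M) := by
  classical
  have hTp : (0 : ℝ) < T.card := by exact_mod_cast hT.card_pos
  have hXp : (0 : ℝ) < X.card := by exact_mod_cast (hT.mono hTX).card_pos
  have hMp : 0 < M := by
    by_contra hcon
    push Not at hcon
    nlinarith
  obtain ⟨n, hn⟩ : ∃ n : ℕ, n = Λ.card := ⟨_, rfl⟩
  obtain ⟨S, hS⟩ : ∃ S : ZMod N → ℂ, S = fun l => ∑ t ∈ T, ψ (l * t) := ⟨_, rfl⟩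
  obtain ⟨c, hc⟩ : ∃ c : ZMod N → ℂ, c = fun l => (starRingEnd ℂ) (S l) / ‖S l‖ := ⟨_, rfl⟩
  have hc1 : ∀ l, ‖c l‖ ≤ 1 := by
    intro l
    rw [hc]
    simp only [norm_div, Complex.norm_conj, Complex.norm_real, norm_norm]
    exact div_self_le_one _
  have hcS : ∀ l, (c l * S l).re = ‖S l‖ := by
    intro l
    rw [hc]
    simp only
    have e1 : (starRingEnd ℂ) (S l) / (‖S l‖ : ℂ) * S l = ((‖S l‖ ^ 2 / ‖S l‖ : ℝ) : ℂ) := by
      rw [div_mul_eq_mul_div, mul_comm, Complex.mul_conj, Complex.normSq_eq_norm_sq]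
      push_cast
      rfl
    rw [e1, Complex.ofReal_re]
    rcases eq_or_ne ‖S l‖ 0 with h | h
    · rw [h]; norm_num
    · field_simp
  have hSl : ∀ l ∈ Λ, (T.card : ℝ) / 2 ≤ ‖S l‖ := by
    intro l hl
    have e1 := hspec l hl
    unfold wt at e1
    have e2 : ((T.card : ℝ) / 2) ^ 2 ≤ ‖S l‖ ^ 2 := by
      rw [hS]
      calc ((T.card : ℝ) / 2) ^ 2 = (T.card : ℝ) ^ 2 / 4 := by ring
        _ ≤ _ := e1
    exact le_of_sq_le_sq e2 (norm_nonneg _)
  obtain ⟨y, hy⟩ : ∃ y : ZMod N → ZMod N → ℝ, y = fun l x => (c l * ψ (l * x)).re := ⟨_, rfl⟩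
  have hy1 : ∀ l x, |y l x| ≤ 1 := by
    intro l x
    rw [hy]
    refine (Complex.abs_re_le_norm _).trans ?_
    rw [norm_mul, ψ_norm, mul_one]
    exact hc1 l
  have hysum : ∀ l, ∑ x ∈ T, y l x = ‖S l‖ := by
    intro l
    rw [hy, ← hcS l, hS, mul_sum, Complex.re_sum]
  -- the upper bound
  obtain ⟨b, hb⟩ : ∃ b : ℝ, b = Real.sinh (1 / 2) / Real.cosh (1 / 2) := ⟨_, rfl⟩
  have hcosh : 0 < Real.cosh (1 / 2) := Real.cosh_pos _
  have hsinh : 0 < Real.sinh (1 / 2) := Real.sinh_pos_iff.2 (by norm_num)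
  have hb0 : 0 ≤ b := by rw [hb]; positivity
  have hb1 : b ≤ 1 := by
    rw [hb, div_le_one hcosh]
    exact (Real.sinh_lt_cosh _).le
  have hexp : ∀ x, Real.exp (∑ l ∈ Λ, 1 / 2 * y l x) ≤
      Real.cosh (1 / 2) ^ n * ∏ l ∈ Λ, (1 + b * y l x) := by
    intro x
    rw [Real.exp_sum, hn, ← prod_const, ← prod_mul_distrib]
    refine prod_le_prod (fun l _ => (Real.exp_pos _).le) fun l _ => ?_
    have e1 := exp_mul_le (1 / 2) (y l x) (hy1 l x)
    refine e1.trans (le_of_eq ?_)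
    rw [hb]
    field_simp
  have hup : ∑ x ∈ T, Real.exp (∑ l ∈ Λ, 1 / 2 * y l x) ≤ 2 * X.card * Real.exp (n / 8) := by
    calc ∑ x ∈ T, Real.exp (∑ l ∈ Λ, 1 / 2 * y l x)
        ≤ ∑ x ∈ X, Real.exp (∑ l ∈ Λ, 1 / 2 * y l x) :=
          sum_le_sum_of_subset_of_nonneg hTX fun x _ _ => (Real.exp_pos _).le
      _ ≤ ∑ x ∈ X, Real.cosh (1 / 2) ^ n * ∏ l ∈ Λ, (1 + b * y l x) := sum_le_sum fun x _ => hexp x
      _ = Real.cosh (1 / 2) ^ n * ∑ x ∈ X, ∏ l ∈ Λ, (1 + b * y l x) := by rw [mul_sum]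
      _ ≤ Real.exp (n / 8) * (X.card * 2) := by
          have e1 : Real.cosh (1 / 2) ^ n ≤ Real.exp (n / 8) := by
            calc Real.cosh (1 / 2) ^ n ≤ Real.exp ((1 / 2) ^ 2 / 2) ^ n :=
                  pow_le_pow_left₀ hcosh.le (Real.cosh_le_exp_half_sq _) n
              _ = Real.exp (n / 8) := by
                  rw [← Real.exp_nat_mul]
                  congr 1
                  ring
          have e2 := riesz X Λ τ hτ hΛ b hb0 hb1 c hc1
          have e3 : (X.card : ℝ) * (1 + 2 ^ Λ.card * τ) ≤ X.card * 2 :=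
            mul_le_mul_of_nonneg_left (by linarith) hXp.le
          have e4 : ∑ x ∈ X, ∏ l ∈ Λ, (1 + b * y l x) ≤ X.card * 2 := by
            rw [hy]
            exact e2.trans e3
          have e5 : 0 ≤ ∑ x ∈ X, ∏ l ∈ Λ, (1 + b * y l x) := by
            refine sum_nonneg fun x _ => prod_nonneg fun l _ => ?_
            have := abs_le.1 (hy1 l x)
            nlinarith
          exact mul_le_mul e1 e4 e5 (Real.exp_pos _).le
      _ = _ := by ring
  -- the lower bound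
  have hlow : T.card * Real.exp (n / 4) ≤ ∑ x ∈ T, Real.exp (∑ l ∈ Λ, 1 / 2 * y l x) := by
    have e1 := convexOn_exp.map_sum_le (t := T) (w := fun _ => 1 / (T.card : ℝ))
      (p := fun x => ∑ l ∈ Λ, 1 / 2 * y l x) (fun _ _ => by positivity)
      (by rw [sum_const, nsmul_eq_mul]; field_simp) (fun _ _ => Set.mem_univ _)
    simp only [smul_eq_mul] at e1
    rw [← mul_sum, ← mul_sum] at e1
    have e2 : ∑ x ∈ T, ∑ l ∈ Λ, 1 / 2 * y l x = ∑ l ∈ Λ, 1 / 2 * ‖S l‖ := by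
      rw [sum_comm]
      refine sum_congr rfl fun l _ => ?_
      rw [← mul_sum, hysum]
    have e3 : (n : ℝ) / 4 * T.card ≤ ∑ l ∈ Λ, 1 / 2 * ‖S l‖ := by
      calc (n : ℝ) / 4 * T.card = ∑ _l ∈ Λ, 1 / 2 * ((T.card : ℝ) / 2) := by
            rw [sum_const, nsmul_eq_mul, ← hn]; ring
        _ ≤ _ := sum_le_sum fun l hl => mul_le_mul_of_nonneg_left (hSl l hl) (by norm_num)
    rw [e2] at e1
    have e4 : (n : ℝ) / 4 ≤ 1 / T.card * ∑ l ∈ Λ, 1 / 2 * ‖S l‖ := by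
      rw [one_div_mul_eq_div, le_div_iff₀ hTp]
      exact e3
    have e5 := (Real.exp_le_exp.2 e4).trans e1
    rw [one_div_mul_eq_div, le_div_iff₀ hTp] at e5
    linarith
  have h1 : T.card * Real.exp (n / 4) ≤ 2 * (M * T.card) * Real.exp (n / 8) := by
    refine (hlow.trans hup).trans ?_
    have := Real.exp_pos (n / 8 : ℝ)
    nlinarith
  have h2 : Real.exp (n / 4) ≤ 2 * M * Real.exp (n / 8) := by
    have e1 : T.card * Real.exp (n / 4) ≤ T.card * (2 * M * Real.exp (n / 8)) := by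
      calc _ ≤ _ := h1
        _ = _ := by ring
    exact le_of_mul_le_mul_left e1 hTp
  have h3 : Real.exp (n / 4 : ℝ) = Real.exp (n / 8) * Real.exp (n / 8) := by
    rw [← Real.exp_add]; congr 1; ring
  have h4 : Real.exp (n / 8) ≤ 2 * M := by
    rw [h3] at h2
    exact le_of_mul_le_mul_right h2 (Real.exp_pos _)
  have h5 := Real.log_le_log (Real.exp_pos _) h4
  rw [Real.log_exp] at h5
  rw [← hn]
  linarith

omit [NeZero N] in
lemma diss_mono (X : Finset (ZMod N)) [NeZero N] (τ : ℝ) (Λ Λ' : Finset (ZMod N)) (h : Λ' ⊆ Λ)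
    (hΛ : Diss X τ Λ) : Diss X τ Λ' :=
  fun t ht u hu hd hn => hΛ t (ht.trans h) u (hu.trans h) hd hn

/-- A local form of Chang's theorem. -/
theorem local_chang (X T : Finset (ZMod N)) (hTX : T ⊆ X) (hT : T.Nonempty) (M : ℝ)
    (hM : (X.card : ℝ) ≤ M * T.card) (n₀ : ℕ) (hn₀ : 8 * Real.log (2 * M) < n₀) :
    ∃ Λ : Finset (ZMod N), (Λ.card : ℝ) ≤ 8 * Real.log (2 * M) ∧
      ∀ γ, (T.card : ℝ) ^ 2 / 4 ≤ wt T γ → ∃ θ : ZMod N,
        (1 / 2) ^ n₀ * X.card ≤ ‖∑ y ∈ X, ψ (θ * y)‖ ∧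
        ∀ w, ‖ψ (γ * w) - 1‖ ≤ ‖ψ (θ * w) - 1‖ + ∑ l ∈ Λ, ‖ψ (l * w) - 1‖ := by
  classical
  obtain ⟨τ, hτ⟩ : ∃ τ : ℝ, τ = (1 / 2) ^ n₀ := ⟨_, rfl⟩
  have hτ0 : 0 < τ := by rw [hτ]; positivity
  obtain ⟨F, hF⟩ : ∃ F : Finset (Finset (ZMod N)), F = univ.filter fun Λ =>
    (∀ l ∈ Λ, (T.card : ℝ) ^ 2 / 4 ≤ wt T l) ∧ Diss X τ Λ ∧ Λ.card ≤ n₀ := ⟨_, rfl⟩
  have hFne : F.Nonempty := by
    refine ⟨∅, ?_⟩
    rw [hF, mem_filter]
    refine ⟨mem_univ _, fun l hl => absurd hl (notMem_empty l), ?_, by simp⟩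
    intro t ht u hu _ hn
    rw [subset_empty.1 ht, subset_empty.1 hu] at hn
    simp at hn
  obtain ⟨Λ, hΛ, hmax⟩ := exists_max_image F (fun Λ => Λ.card) hFne
  rw [hF, mem_filter] at hΛ
  obtain ⟨-, hspec, hdiss, hcard⟩ := hΛ
  have hpow : ∀ n : ℕ, n ≤ n₀ → (2 : ℝ) ^ n * τ ≤ 1 := by
    intro n hn
    rw [hτ, one_div, inv_pow, ← div_eq_mul_inv, div_le_one (by positivity)]
    exact pow_le_pow_right₀ (by norm_num) hn
  have hbound := chang X T Λ hTX hT M hM τ hτ0.le hdiss (hpow _ hcard) hspec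
  have hlt : Λ.card < n₀ := by exact_mod_cast lt_of_le_of_lt hbound hn₀
  refine ⟨Λ, hbound, fun γ hγ => ?_⟩
  rw [← hτ]
  by_cases hγΛ : γ ∈ Λ
  · refine ⟨0, ?_, fun w => ?_⟩
    · have e1 : ‖∑ y ∈ X, ψ (0 * y)‖ = X.card := by
        have : ∀ y ∈ X, ψ (0 * y) = 1 := fun y _ => by rw [zero_mul, ψ_zero]
        rw [sum_congr rfl this]
        simp
      rw [e1]
      have e2 := hpow 0 (Nat.zero_le _)
      rw [pow_zero, one_mul] at e2
      exact mul_le_of_le_one_left (Nat.cast_nonneg _) e2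
    · have e1 : ‖ψ (γ * w) - 1‖ ≤ ∑ l ∈ Λ, ‖ψ (l * w) - 1‖ :=
        single_le_sum (f := fun l => ‖ψ (l * w) - 1‖) (fun _ _ => norm_nonneg _) hγΛ
      have := norm_nonneg (ψ (0 * w) - 1)
      linarith
  · have hnot : ¬ Diss X τ (insert γ Λ) := by
      intro hcon
      have h1 : insert γ Λ ∈ F := by
        rw [hF, mem_filter]
        refine ⟨mem_univ _, fun l hl => ?_, hcon, ?_⟩
        · rcases mem_insert.1 hl with rfl | hl
          · exact hγ
          · exact hspec l hl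
        · rw [card_insert_of_notMem hγΛ]; omega
      have h2 := hmax _ h1
      rw [card_insert_of_notMem hγΛ] at h2
      omega
    unfold Diss at hnot
    push Not at hnot
    obtain ⟨t, ht, u, hu, hd, hne, hbig⟩ := hnot
    have hγtu : γ ∈ t ∨ γ ∈ u := by
      by_contra hcon
      push Not at hcon
      have h1 : t ⊆ Λ := fun l hl => (mem_insert.1 (ht hl)).resolve_left fun e => hcon.1 (e ▸ hl)
      have h2 : u ⊆ Λ := fun l hl => (mem_insert.1 (hu hl)).resolve_left fun e => hcon.2 (e ▸ hl)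
      exact absurd (hdiss t h1 u h2 hd hne) (not_le.2 hbig)
    -- a bound for the signed sum of the other characters
    have hsum : ∀ (t u : Finset (ZMod N)), t ⊆ Λ → u ⊆ Λ → Disjoint t u → ∀ w,
        ‖ψ ((∑ l ∈ t, l - ∑ l ∈ u, l) * w) - 1‖ ≤ ∑ l ∈ Λ, ‖ψ (l * w) - 1‖ := by
      intro t u ht hu hd w
      have e1 : (∑ l ∈ t, l - ∑ l ∈ u, l) * w = ∑ l ∈ t, l * w + ∑ l ∈ u, -(l * w) := by
        rw [sum_neg_distrib, ← sum_mul, ← sum_mul]; ring
      rw [e1]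
      refine (norm_ψ_sub_one_add _ _).trans ?_
      have e2 := norm_ψ_sub_one_sum t fun l => l * w
      have e3 := norm_ψ_sub_one_sum u fun l => -(l * w)
      simp only [norm_ψ_sub_one_neg] at e3
      have e4 : ∑ l ∈ t, ‖ψ (l * w) - 1‖ + ∑ l ∈ u, ‖ψ (l * w) - 1‖ ≤
          ∑ l ∈ Λ, ‖ψ (l * w) - 1‖ := by
        rw [← sum_union hd]
        exact sum_le_sum_of_subset_of_nonneg (union_subset ht hu) fun _ _ _ => norm_nonneg _
      linarith
    rcases hγtu with hγt | hγu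
    · refine ⟨∑ l ∈ t, l - ∑ l ∈ u, l, hbig.le, fun w => ?_⟩
      have ht' : t.erase γ ⊆ Λ := fun l hl => by
        rw [mem_erase] at hl
        exact (mem_insert.1 (ht hl.2)).resolve_left hl.1
      have hu' : u ⊆ Λ := fun l hl => (mem_insert.1 (hu hl)).resolve_left fun e =>
        (disjoint_left.1 hd) hγt (e ▸ hl)
      have e1 : γ * w = (∑ l ∈ t, l - ∑ l ∈ u, l) * w +
          (∑ l ∈ u, l - ∑ l ∈ t.erase γ, l) * w := by
        rw [← add_sum_erase t _ hγt]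
        ring
      rw [e1]
      refine (norm_ψ_sub_one_add _ _).trans (add_le_add le_rfl ?_)
      exact hsum u (t.erase γ) hu' ht' (hd.symm.mono_right (erase_subset _ _)) w
    · refine ⟨∑ l ∈ t, l - ∑ l ∈ u, l, hbig.le, fun w => ?_⟩
      have hu' : u.erase γ ⊆ Λ := fun l hl => by
        rw [mem_erase] at hl
        exact (mem_insert.1 (hu hl.2)).resolve_left hl.1
      have ht' : t ⊆ Λ := fun l hl => (mem_insert.1 (ht hl)).resolve_left fun e =>
        (disjoint_left.1 hd) (e ▸ hl) hγu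
      have e1 : γ * w = -((∑ l ∈ t, l - ∑ l ∈ u, l) * w) +
          (∑ l ∈ t, l - ∑ l ∈ u.erase γ, l) * w := by
        rw [← add_sum_erase u _ hγu]
        ring
      rw [e1]
      refine (norm_ψ_sub_one_add _ _).trans ?_
      rw [norm_ψ_sub_one_neg]
      exact add_le_add le_rfl (hsum t (u.erase γ) ht' hu' (hd.mono_right (erase_subset _ _)) w)

end Pool.Agent.Q248.BR
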