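import Mathlib

/-! Almost periodicity (Croot–Sisask) in `L^(2m)` for the proportion of the sums of two elements of a
set which fall into its sum set, for translations from an arbitrary set `X`. -/

set_option autoImplicit false

namespace Pool.Agent.Q248.BR

open Finset
open scoped Pointwise

lemma exp_mul_le (t y : ℝ) (hy : |y| ≤ 1) : Real.exp (t * y) ≤ Real.cosh t + y * Real.sinh t := by
  have h1 := abs_le.1 hy
  have ha : 0 ≤ (1 + y) / 2 := by linarith
  have hb : 0 ≤ (1 - y) / 2 := by linarith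
  have h := convexOn_exp.2 (Set.mem_univ t) (Set.mem_univ (-t)) ha hb (by ring)
  simp only [smul_eq_mul] at h
  have e1 : (1 + y) / 2 * t + (1 - y) / 2 * (-t) = t * y := by ring
  rw [e1] at h
  rw [Real.cosh_eq, Real.sinh_eq]
  linarith

lemma pow_le_cosh (x : ℝ) (m : ℕ) : x ^ (2 * m) ≤ (2 * m).factorial * Real.cosh x := by
  have h := le_hasSum (Real.hasSum_cosh x) m (fun n _ => by
    have : 0 ≤ x ^ (2 * n) := by rw [pow_mul]; positivity
    positivity)
  have h2 : (0 : ℝ) < (2 * m).factorial := by exact_mod_cast Nat.factorial_pos _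
  rw [div_le_iff₀ h2] at h
  linarith

variable {G : Type*}

/-- a bound for the moment generating function of a sum of independent variables -/
lemma sum_exp_le (B : Finset G) (W : G → ℝ) (hW : ∀ a ∈ B, |W a| ≤ 1) (h0 : ∑ a ∈ B, W a = 0)
    (k : ℕ) (t : ℝ) :
    ∑ s ∈ Fintype.piFinset (fun _ : Fin k => B), Real.exp (t * ∑ j, W (s j)) ≤
      (B.card : ℝ) ^ k * Real.exp (k * (t ^ 2 / 2)) := by
  have h1 : ∀ s : Fin k → G, Real.exp (t * ∑ j, W (s j)) = ∏ j, Real.exp (t * W (s j)) := by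
    intro s
    rw [mul_sum, Real.exp_sum]
  simp only [h1]
  rw [← Finset.prod_univ_sum (fun _ : Fin k => B) (fun _ a => Real.exp (t * W a)), prod_const,
    card_univ, Fintype.card_fin]
  have h2 : ∑ a ∈ B, Real.exp (t * W a) ≤ B.card * Real.exp (t ^ 2 / 2) := by
    calc ∑ a ∈ B, Real.exp (t * W a) ≤ ∑ a ∈ B, (Real.cosh t + W a * Real.sinh t) :=
          sum_le_sum fun a ha => exp_mul_le t (W a) (hW a ha)
      _ = B.card * Real.cosh t := by
          rw [sum_add_distrib, ← sum_mul, h0, zero_mul, add_zero, sum_const, nsmul_eq_mul]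
      _ ≤ _ := mul_le_mul_of_nonneg_left (Real.cosh_le_exp_half_sq t) (Nat.cast_nonneg _)
  calc (∑ a ∈ B, Real.exp (t * W a)) ^ k ≤ (B.card * Real.exp (t ^ 2 / 2)) ^ k :=
        pow_le_pow_left₀ (sum_nonneg fun a _ => (Real.exp_pos _).le) h2 k
    _ = _ := by rw [mul_pow, ← Real.exp_nat_mul]

/-- the moments of a sum of independent variables -/
lemma moment (B : Finset G) (W : G → ℝ) (hW : ∀ a ∈ B, |W a| ≤ 1) (h0 : ∑ a ∈ B, W a = 0)
    (k m : ℕ) (hk : 0 < k) (hm : 0 < m) :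
    ∑ s ∈ Fintype.piFinset (fun _ : Fin k => B), (∑ j, W (s j)) ^ (2 * m) ≤
      (B.card : ℝ) ^ k * (2 * Real.exp 1 * m * k) ^ m := by
  have hkR : (0 : ℝ) < k := by exact_mod_cast hk
  have hmR : (0 : ℝ) < m := by exact_mod_cast hm
  obtain ⟨t, ht⟩ : ∃ t : ℝ, t = √(2 * m / k) := ⟨_, rfl⟩
  have ht0 : 0 < t := by rw [ht]; positivity
  have ht2 : t ^ 2 = 2 * m / k := by rw [ht, Real.sq_sqrt (by positivity)]
  have hB0 : (0 : ℝ) ≤ (B.card : ℝ) ^ k := by positivity
  have h1 : ∀ s : Fin k → G, t ^ (2 * m) * (∑ j, W (s j)) ^ (2 * m) ≤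
      (2 * m).factorial * ((Real.exp (t * ∑ j, W (s j)) + Real.exp (-t * ∑ j, W (s j))) / 2) := by
    intro s
    have h2 := pow_le_cosh (t * ∑ j, W (s j)) m
    rw [mul_pow, Real.cosh_eq, ← neg_mul] at h2
    exact h2
  have h2 : t ^ (2 * m) * ∑ s ∈ Fintype.piFinset (fun _ : Fin k => B), (∑ j, W (s j)) ^ (2 * m) ≤
      (2 * m).factorial * ((B.card : ℝ) ^ k * Real.exp m) := by
    rw [mul_sum]
    calc _ ≤ ∑ s ∈ Fintype.piFinset (fun _ : Fin k => B), ((2 * m).factorial : ℝ) *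
          ((Real.exp (t * ∑ j, W (s j)) + Real.exp (-t * ∑ j, W (s j))) / 2) :=
          sum_le_sum fun s _ => h1 s
      _ = ((2 * m).factorial : ℝ) *
          ((∑ s ∈ Fintype.piFinset (fun _ : Fin k => B), Real.exp (t * ∑ j, W (s j)) +
          ∑ s ∈ Fintype.piFinset (fun _ : Fin k => B), Real.exp (-t * ∑ j, W (s j))) / 2) := by
          rw [← mul_sum, ← sum_add_distrib, sum_div]
      _ ≤ _ := by
          apply mul_le_mul_of_nonneg_left _ (Nat.cast_nonneg _)
          have e1 := sum_exp_le B W hW h0 k t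
          have e2 := sum_exp_le B W hW h0 k (-t)
          have e3 : (k : ℝ) * (t ^ 2 / 2) = m := by rw [ht2]; field_simp
          have e4 : (k : ℝ) * ((-t) ^ 2 / 2) = m := by rw [neg_sq, e3]
          rw [e3] at e1
          rw [e4] at e2
          linarith
  have h3 : ((2 * m).factorial : ℝ) ≤ (2 * m : ℝ) ^ (2 * m) := by
    have := Nat.factorial_le_pow (2 * m)
    exact_mod_cast this
  have h4 : t ^ (2 * m) = (2 * m / k) ^ m := by rw [pow_mul, ht2]
  have h5 : (2 * m / k : ℝ) ^ m * ((B.card : ℝ) ^ k * (2 * Real.exp 1 * m * k) ^ m) =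
      (2 * m : ℝ) ^ (2 * m) * ((B.card : ℝ) ^ k * Real.exp m) := by
    have e1 : Real.exp m = Real.exp 1 ^ m := by rw [← Real.exp_nat_mul, mul_one]
    rw [e1, pow_mul]
    have e2 : (2 * m / k : ℝ) ^ m * (2 * Real.exp 1 * m * k) ^ m = ((2 * m) ^ 2) ^ m * Real.exp 1 ^ m := by
      rw [← mul_pow, ← mul_pow]
      congr 1
      field_simp
    calc _ = ((2 * m / k : ℝ) ^ m * (2 * Real.exp 1 * m * k) ^ m) * (B.card : ℝ) ^ k := by ring
      _ = _ := by rw [e2]; ring
  have h6 : (0 : ℝ) < (2 * m / k : ℝ) ^ m := by positivity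
  rw [h4] at h2
  have h7 : ((2 * m).factorial : ℝ) * ((B.card : ℝ) ^ k * Real.exp m) ≤
      (2 * m : ℝ) ^ (2 * m) * ((B.card : ℝ) ^ k * Real.exp m) :=
    mul_le_mul_of_nonneg_right h3 (by positivity)
  have h8 := h2.trans (h7.trans h5.ge)
  exact le_of_mul_le_mul_left h8 h6

end Pool.Agent.Q248.BR
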