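import Pool.Agent.Q248.BR.CS

/-! Almost periodicity (Croot–Sisask), second part. -/

set_option autoImplicit false

namespace Pool.Agent.Q248.BR

open Finset
open scoped Pointwise

variable {G : Type*} [AddCommGroup G] [Fintype G] [DecidableEq G]

/-- indicator function -/
noncomputable def ind (E : Finset G) (x : G) : ℝ := if x ∈ E then 1 else 0

omit [AddCommGroup G] [Fintype G] in
lemma ind_nonneg (E : Finset G) (x : G) : 0 ≤ ind E x := by
  unfold ind; split_ifs <;> norm_num

omit [AddCommGroup G] [Fintype G] in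
lemma ind_le_one (E : Finset G) (x : G) : ind E x ≤ 1 := by
  unfold ind; split_ifs <;> norm_num

/-- the proportion of the `a ∈ B` with `y + a ∈ E` -/
noncomputable def prp (E B : Finset G) (y : G) : ℝ := (∑ a ∈ B, ind E (y + a)) / B.card

/-- the proportion of the `j` with `y + s j ∈ E` -/
noncomputable def smp (E : Finset G) {k : ℕ} (s : Fin k → G) (y : G) : ℝ :=
  (∑ j, ind E (y + s j)) / k

omit [Fintype G] in
lemma prp_bounds (E B : Finset G) (hB : B.Nonempty) (y : G) : 0 ≤ prp E B y ∧ prp E B y ≤ 1 := by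
  have hBp : (0 : ℝ) < B.card := by exact_mod_cast hB.card_pos
  unfold prp
  constructor
  · exact div_nonneg (sum_nonneg fun a _ => ind_nonneg _ _) hBp.le
  · rw [div_le_one hBp]
    calc ∑ a ∈ B, ind E (y + a) ≤ ∑ _a ∈ B, (1 : ℝ) := sum_le_sum fun a _ => ind_le_one _ _
      _ = B.card := by simp

omit [Fintype G] in
lemma smp_sub_prp (E B : Finset G) {k : ℕ} (hk : 0 < k) (s : Fin k → G) (y : G) :
    smp E s y - prp E B y = (∑ j, (ind E (y + s j) - prp E B y)) / k := by
  have hkR : (k : ℝ) ≠ 0 := by exact_mod_cast hk.ne'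
  unfold smp
  rw [sum_sub_distrib, sum_const, card_univ, Fintype.card_fin, nsmul_eq_mul]
  field_simp

omit [Fintype G] in
/-- the average over the samples, at one point -/
lemma moment_point (E B : Finset G) (hB : B.Nonempty) (k m : ℕ) (hk : 0 < k) (hm : 0 < m) (y : G) :
    ∑ s ∈ Fintype.piFinset (fun _ : Fin k => B), (smp E s y - prp E B y) ^ (2 * m) ≤
      (B.card : ℝ) ^ k * (2 * Real.exp 1 * m / k) ^ m := by
  have hBp : (0 : ℝ) < B.card := by exact_mod_cast hB.card_pos
  have hkR : (0 : ℝ) < k := by exact_mod_cast hk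
  have hb := prp_bounds E B hB y
  have h1 := moment B (fun a => ind E (y + a) - prp E B y) (fun a _ => by
    rw [abs_le]
    have h2 := ind_nonneg E (y + a)
    have h3 := ind_le_one E (y + a)
    constructor <;> linarith) (by
    rw [sum_sub_distrib, sum_const, nsmul_eq_mul]
    unfold prp
    field_simp
    ring) k m hk hm
  have h2 : ∀ s : Fin k → G, (smp E s y - prp E B y) ^ (2 * m) =
      (∑ j, (ind E (y + s j) - prp E B y)) ^ (2 * m) / (k : ℝ) ^ (2 * m) := by
    intro s
    rw [smp_sub_prp E B hk, div_pow]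
  simp only [h2]
  rw [← sum_div, div_le_iff₀ (by positivity)]
  refine h1.trans (le_of_eq ?_)
  have e : (2 * Real.exp 1 * m * k : ℝ) ^ m = (2 * Real.exp 1 * m / k) ^ m * (k : ℝ) ^ (2 * m) := by
    rw [pow_mul, ← mul_pow]
    congr 1
    field_simp
  rw [e]
  ring

omit [Fintype G] in
/-- the functions vanish outside `E - B` -/
lemma zero_outside (E B : Finset G) (y : G) (hy : y ∉ E - B) :
    prp E B y = 0 ∧ ∀ (k : ℕ) (s : Fin k → G), (∀ j, s j ∈ B) → smp E s y = 0 := by
  have h1 : ∀ a ∈ B, ind E (y + a) = 0 := by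
    intro a ha
    unfold ind
    rw [if_neg]
    intro h
    exact hy (mem_sub.2 ⟨y + a, h, a, ha, by abel⟩)
  constructor
  · unfold prp
    rw [sum_eq_zero h1, zero_div]
  · intro k s hs
    unfold smp
    rw [sum_eq_zero fun j _ => h1 _ (hs j), zero_div]

/-- the average over the samples -/
lemma moment_all (E B : Finset G) (hB : B.Nonempty) (k m : ℕ) (hk : 0 < k) (hm : 0 < m) :
    ∑ s ∈ Fintype.piFinset (fun _ : Fin k => B), ∑ y, (smp E s y - prp E B y) ^ (2 * m) ≤
      (B.card : ℝ) ^ k * ((E - B).card * (2 * Real.exp 1 * m / k) ^ m) := by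
  rw [sum_comm]
  have h1 : ∑ y, ∑ s ∈ Fintype.piFinset (fun _ : Fin k => B), (smp E s y - prp E B y) ^ (2 * m) =
      ∑ y ∈ E - B, ∑ s ∈ Fintype.piFinset (fun _ : Fin k => B), (smp E s y - prp E B y) ^ (2 * m) := by
    symm
    refine sum_subset (subset_univ _) fun y _ hy => ?_
    refine sum_eq_zero fun s hs => ?_
    have h2 := zero_outside E B y hy
    rw [h2.1, h2.2 k s (Fintype.mem_piFinset.1 hs), sub_zero, zero_pow (by omega)]
  rw [h1]
  calc _ ≤ ∑ _y ∈ E - B, (B.card : ℝ) ^ k * (2 * Real.exp 1 * m / k) ^ m :=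
        sum_le_sum fun y _ => moment_point E B hB k m hk hm y
    _ = _ := by rw [sum_const, nsmul_eq_mul]; ring

/-- Croot–Sisask: a large set of almost periods, for translations from `X`. -/
theorem croot_sisask (E B X : Finset G) (hB : B.Nonempty) (hX : X.Nonempty) (k m : ℕ) (hk : 0 < k)
    (hm : 0 < m) :
    ∃ (h : G → ℝ), ∃ T ⊆ X, T.Nonempty ∧
      (X.card : ℝ) * (B.card : ℝ) ^ k ≤ 2 * T.card * ((B + X).card : ℝ) ^ k ∧
      ∀ x ∈ T, ∑ y, (h y - prp E B (y + x)) ^ (2 * m) ≤
        2 * ((E - B).card * (2 * Real.exp 1 * m / k) ^ m) := by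
  classical
  have hBp : (0 : ℝ) < B.card := by exact_mod_cast hB.card_pos
  have hXp : (0 : ℝ) < X.card := by exact_mod_cast hX.card_pos
  have hkR : (0 : ℝ) < k := by exact_mod_cast hk
  have hmR : (0 : ℝ) < m := by exact_mod_cast hm
  obtain ⟨M, hM⟩ : ∃ M : ℝ, M = (E - B).card * (2 * Real.exp 1 * m / k) ^ m := ⟨_, rfl⟩
  have hM0 : 0 ≤ M := by rw [hM]; positivity
  obtain ⟨P, hP⟩ : ∃ P : Finset (Fin k → G), P = Fintype.piFinset (fun _ : Fin k => B) := ⟨_, rfl⟩
  have hPcard : (P.card : ℝ) = (B.card : ℝ) ^ k := by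
    rw [hP, Fintype.card_piFinset, prod_const, card_univ, Fintype.card_fin]
    push_cast; rfl
  obtain ⟨D, hD⟩ : ∃ D : (Fin k → G) → ℝ, D = fun s => ∑ y, (smp E s y - prp E B y) ^ (2 * m) :=
    ⟨_, rfl⟩
  have hD0 : ∀ s, 0 ≤ D s := fun s => by
    rw [hD]
    exact sum_nonneg fun y _ => by rw [pow_mul]; positivity
  have hsum : ∑ s ∈ P, D s ≤ P.card * M := by
    rw [hP, hD, hM, ← hP, hPcard, hP]
    exact moment_all E B hB k m hk hm
  obtain ⟨Q, hQ⟩ : ∃ Q : Finset (Fin k → G), Q = P.filter fun s => D s ≤ 2 * M := ⟨_, rfl⟩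
  -- at least half of the samples are good
  have hQcard : (P.card : ℝ) ≤ 2 * Q.card := by
    rcases hM0.eq_or_lt with h0 | h0
    · have h1 : ∀ s ∈ P, D s = 0 := by
        have h2 : ∑ s ∈ P, D s = 0 := le_antisymm (by rw [← h0, mul_zero] at hsum; exact hsum)
          (sum_nonneg fun s _ => hD0 s)
        exact (sum_eq_zero_iff_of_nonneg fun s _ => hD0 s).1 h2
      have h2 : Q = P := by
        rw [hQ]
        refine filter_true_of_mem fun s hs => ?_
        rw [h1 s hs, ← h0, mul_zero]
      rw [h2]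
      have : (0 : ℝ) ≤ P.card := Nat.cast_nonneg _
      linarith
    · have h1 : 2 * M * ((P.card : ℝ) - Q.card) ≤ ∑ s ∈ P, D s := by
        have h2 : (P.filter fun s => ¬ D s ≤ 2 * M).card = P.card - Q.card := by
          rw [hQ, ← Finset.card_filter_add_card_filter_not (s := P) (fun s => D s ≤ 2 * M)]
          omega
        have h3 : ((P.filter fun s => ¬ D s ≤ 2 * M).card : ℝ) = (P.card : ℝ) - Q.card := by
          rw [h2, Nat.cast_sub]
          rw [hQ]; exact card_filter_le _ _
        rw [← h3]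
        calc 2 * M * ((P.filter fun s => ¬ D s ≤ 2 * M).card : ℝ)
            = ∑ _s ∈ P.filter fun s => ¬ D s ≤ 2 * M, 2 * M := by
              rw [sum_const, nsmul_eq_mul]; ring
          _ ≤ ∑ s ∈ P.filter fun s => ¬ D s ≤ 2 * M, D s := by
              refine sum_le_sum fun s hs => ?_
              have := (mem_filter.1 hs).2
              push Not at this
              exact this.le
          _ ≤ ∑ s ∈ P, D s := sum_le_sum_of_subset_of_nonneg (filter_subset _ _) fun s _ _ => hD0 s
      have h2 := h1.trans hsum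
      nlinarith
  -- the pigeonhole principle
  obtain ⟨U, hU⟩ : ∃ U : Finset (Fin k → G), U = Fintype.piFinset (fun _ : Fin k => B + X) := ⟨_, rfl⟩
  have hUcard : (U.card : ℝ) = ((B + X).card : ℝ) ^ k := by
    rw [hU, Fintype.card_piFinset, prod_const, card_univ, Fintype.card_fin]
    push_cast; rfl
  have hmaps : ∀ p ∈ Q ×ˢ X, (fun j => p.1 j + p.2 : Fin k → G) ∈ U := by
    intro p hp
    rw [mem_product, hQ, mem_filter, hP, Fintype.mem_piFinset] at hp
    rw [hU, Fintype.mem_piFinset]
    intro j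
    exact add_mem_add (hp.1.1 j) hp.2
  obtain ⟨b, hb⟩ : ∃ b : Fin k → G, ((Q ×ˢ X).card : ℝ) ≤
      U.card * ((Q ×ˢ X).filter fun p => (fun j => p.1 j + p.2) = b).card := by
    by_contra hcon
    push Not at hcon
    have h1 : (Q ×ˢ X).card = ∑ b ∈ U, ((Q ×ˢ X).filter fun p => (fun j => p.1 j + p.2) = b).card :=
      card_eq_sum_card_fiberwise fun p hp => mem_coe.2 (hmaps p (mem_coe.1 hp))
    have hUne : U.Nonempty := by
      rw [hU, Fintype.piFinset_nonempty]
      exact fun _ => hB.add hX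
    have h2 : (U.card : ℝ) * (Q ×ˢ X).card < U.card * (Q ×ˢ X).card := by
      calc (U.card : ℝ) * (Q ×ˢ X).card =
            ∑ b ∈ U, U.card * (((Q ×ˢ X).filter fun p => (fun j => p.1 j + p.2) = b).card : ℝ) := by
            rw [← mul_sum, h1]; push_cast; rfl
        _ < ∑ _b ∈ U, ((Q ×ˢ X).card : ℝ) := sum_lt_sum_of_nonempty hUne fun b _ => hcon b
        _ = U.card * (Q ×ˢ X).card := by rw [sum_const, nsmul_eq_mul]
    exact lt_irrefl _ h2
  obtain ⟨T, hT⟩ : ∃ T : Finset G, T = X.filter fun x => (fun j => b j - x) ∈ Q := ⟨_, rfl⟩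
  have hTcard : ((Q ×ˢ X).filter fun p => (fun j => p.1 j + p.2) = b).card ≤ T.card := by
    refine card_le_card_of_injOn (fun p => p.2) ?_ ?_
    · intro p hp
      rw [mem_coe, mem_filter, mem_product] at hp
      rw [mem_coe, hT, mem_filter]
      refine ⟨hp.1.2, ?_⟩
      have : (fun j => b j - p.2) = p.1 := by
        funext j
        rw [← hp.2]
        show p.1 j + p.2 - p.2 = p.1 j
        abel
      rw [this]
      exact hp.1.1
    · intro p hp q hq hpq
      rw [mem_coe, mem_filter] at hp hq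
      have h1 : p.2 = q.2 := hpq
      refine Prod.ext ?_ h1
      funext j
      have h2 : p.1 j + p.2 = q.1 j + q.2 := congrFun (hp.2.trans hq.2.symm) j
      rw [h1] at h2
      exact add_right_cancel h2
  have hbig : (X.card : ℝ) * (B.card : ℝ) ^ k ≤ 2 * T.card * ((B + X).card : ℝ) ^ k := by
    rw [card_product] at hb
    push_cast at hb
    have h1 : (U.card : ℝ) * ((Q ×ˢ X).filter fun p => (fun j => p.1 j + p.2) = b).card ≤
        U.card * T.card := by
      apply mul_le_mul_of_nonneg_left _ (Nat.cast_nonneg _)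
      exact_mod_cast hTcard
    have h2 : (Q.card : ℝ) * X.card ≤ U.card * T.card := hb.trans h1
    rw [← hPcard, ← hUcard]
    have h3 : (P.card : ℝ) * X.card ≤ 2 * Q.card * X.card :=
      mul_le_mul_of_nonneg_right hQcard hXp.le
    linarith
  have hTne : T.Nonempty := by
    rw [← card_pos]
    by_contra h0
    have h1 : T.card = 0 := by omega
    rw [h1, Nat.cast_zero, mul_zero, zero_mul] at hbig
    have h2 : 0 < (X.card : ℝ) * (B.card : ℝ) ^ k := by positivity
    linarith
  refine ⟨fun y => smp E b y, T, by rw [hT]; exact filter_subset _ _, hTne, hbig, fun x hx => ?_⟩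
  rw [hT, mem_filter, hQ, mem_filter, hD] at hx
  have h1 := hx.2.2
  rw [← hM]
  refine le_trans (le_of_eq ?_) h1
  refine (Fintype.sum_equiv (Equiv.addRight x) _ _ fun y => ?_).trans rfl
  have : smp E (fun j => b j - x) (y + x) = smp E b y := by
    unfold smp
    congr 1
    refine sum_congr rfl fun j _ => ?_
    have e : y + x + (b j - x) = y + b j := by abel
    show ind E (y + x + (b j - x)) = ind E (y + b j)
    rw [e]
  rw [Equiv.coe_addRight, this]

end Pool.Agent.Q248.BR
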