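import Pool.Agent.Q248.BR.CS2

/-! Almost periodicity (Croot–Sisask), third part: iteration. -/

set_option autoImplicit false

namespace Pool.Agent.Q248.BR

open Finset
open scoped Pointwise

variable {G : Type*} [AddCommGroup G] [Fintype G] [DecidableEq G]

/-- the `L^p` norm -/
noncomputable def nrm (p : ℝ) (f : G → ℝ) : ℝ := (∑ y, |f y| ^ p) ^ (1 / p)

omit [AddCommGroup G] [DecidableEq G] in
lemma nrm_add (p : ℝ) (hp : 1 ≤ p) (f g : G → ℝ) :
    nrm p (fun y => f y + g y) ≤ nrm p f + nrm p g := Real.Lp_add_le univ f g hp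

omit [DecidableEq G] in
lemma nrm_translate (p : ℝ) (f : G → ℝ) (z : G) : nrm p (fun y => f (y + z)) = nrm p f := by
  unfold nrm
  congr 1
  exact Fintype.sum_equiv (Equiv.addRight z) _ _ fun y => rfl

omit [AddCommGroup G] [DecidableEq G] in
lemma nrm_neg (p : ℝ) (f : G → ℝ) : nrm p (fun y => - f y) = nrm p f := by
  unfold nrm
  simp only [abs_neg]

omit [AddCommGroup G] [DecidableEq G] in
lemma nrm_even (m : ℕ) (f : G → ℝ) :
    nrm (2 * m) f = (∑ y, f y ^ (2 * m)) ^ (1 / (2 * m : ℝ)) := by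
  unfold nrm
  congr 1
  refine sum_congr rfl fun y _ => ?_
  have : (2 * (m : ℝ)) = ((2 * m : ℕ) : ℝ) := by push_cast; ring
  rw [this, Real.rpow_natCast, pow_mul, sq_abs, ← pow_mul]

/-- the proportion of the pairs in `B` whose sum, translated by `z`, is in `B + B` -/
noncomputable def GG (B : Finset G) (z : G) : ℝ := (∑ y ∈ B, prp (B + B) B (y + z)) / B.card

/-- the distance of a translate -/
noncomputable def Dl (p : ℝ) (g : G → ℝ) (z : G) : ℝ := nrm p fun y => g (y + z) - g y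

omit [DecidableEq G] in
lemma Dl_add (p : ℝ) (hp : 1 ≤ p) (g : G → ℝ) (z z' : G) :
    Dl p g (z + z') ≤ Dl p g z + Dl p g z' := by
  have h1 := nrm_add p hp (fun y => g (y + z' + z) - g (y + z')) (fun y => g (y + z') - g y)
  have h2 : nrm p (fun y => g (y + z' + z) - g (y + z')) = Dl p g z :=
    nrm_translate p (fun y => g (y + z) - g y) z'
  have h3 : (fun y => g (y + z' + z) - g (y + z') + (g (y + z') - g y)) =
      fun y => g (y + (z + z')) - g y := by
    funext y
    have : y + z' + z = y + (z + z') := by abel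
    rw [this]
    ring
  rw [h2, h3] at h1
  exact h1

omit [DecidableEq G] in
lemma Dl_zero (p : ℝ) (hp : 0 < p) (g : G → ℝ) : Dl p g 0 = 0 := by
  unfold Dl nrm
  have : ∀ y, |g (y + 0) - g y| ^ p = 0 := fun y => by
    rw [add_zero, sub_self, abs_zero, Real.zero_rpow hp.ne']
  rw [sum_eq_zero fun y _ => this y, Real.zero_rpow (by positivity)]

omit [DecidableEq G] in
lemma Dl_sum (p : ℝ) (hp : 1 ≤ p) (g : G → ℝ) (e : ℝ) {ι : Type*} (w : ι → G)
    (hw : ∀ j, Dl p g (w j) ≤ e) (s : Finset ι) : Dl p g (∑ j ∈ s, w j) ≤ s.card * e := by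
  classical
  induction s using Finset.induction_on with
  | empty => rw [sum_empty, Dl_zero p (by linarith), card_empty, Nat.cast_zero, zero_mul]
  | insert i s hi ih =>
    rw [sum_insert hi, card_insert_of_notMem hi]
    push_cast
    have := Dl_add p hp g (w i) (∑ j ∈ s, w j)
    have h2 := hw i
    linarith

omit [Fintype G] in
lemma GG_zero (B : Finset G) (hB : B.Nonempty) : GG B 0 = 1 := by
  have hBp : (0 : ℝ) < B.card := by exact_mod_cast hB.card_pos
  unfold GG
  have h1 : ∀ y ∈ B, prp (B + B) B (y + 0) = 1 := by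
    intro y hy
    unfold prp
    have h2 : ∀ a ∈ B, ind (B + B) (y + 0 + a) = 1 := by
      intro a ha
      unfold ind
      rw [if_pos (by rw [add_zero]; exact add_mem_add hy ha)]
    rw [sum_congr rfl h2]
    simp [hBp.ne']
  rw [sum_congr rfl h1]
  simp [hBp.ne']

/-- The sums of many almost periods: almost all sums of pairs stay in the sum set. -/
theorem almost_one (B X : Finset G) (hB : B.Nonempty) (hX : X.Nonempty) (k m l : ℕ) (hk : 0 < k)
    (hm : 0 < m) (hl : 0 < l)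
    (hcond : 2 * (((B + B - B).card : ℝ) * (2 * Real.exp 1 * m / k) ^ m) * (16 * l : ℝ) ^ (2 * m) ≤
      B.card) :
    ∃ T ⊆ X, T.Nonempty ∧ (X.card : ℝ) * (B.card : ℝ) ^ k ≤ 2 * T.card * ((B + X).card : ℝ) ^ k ∧
      ∀ u v : Fin l → G, (∀ j, u j ∈ T) → (∀ j, v j ∈ T) → 7 / 8 ≤ GG B (∑ j, (u j - v j)) := by
  classical
  have hBp : (0 : ℝ) < B.card := by exact_mod_cast hB.card_pos
  have hmR : (1 : ℝ) ≤ m := by exact_mod_cast hm
  have hkR : (0 : ℝ) < k := by exact_mod_cast hk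
  have hlR : (0 : ℝ) < l := by exact_mod_cast hl
  obtain ⟨h, T, hTX, hTne, hTcard, hT⟩ := croot_sisask (B + B) B X hB hX k m hk hm
  refine ⟨T, hTX, hTne, hTcard, fun u v hu hv => ?_⟩
  obtain ⟨M, hM⟩ : ∃ M : ℝ, M = 2 * (((B + B - B).card : ℝ) * (2 * Real.exp 1 * m / k) ^ m) := ⟨_, rfl⟩
  rw [← hM] at hT hcond
  have hM0 : 0 ≤ M := by rw [hM]; positivity
  obtain ⟨g, hg⟩ : ∃ g : G → ℝ, g = prp (B + B) B := ⟨_, rfl⟩
  obtain ⟨p, hp⟩ : ∃ p : ℝ, p = 2 * m := ⟨_, rfl⟩
  have hp1 : 1 ≤ p := by linarith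
  have hpn : p = ((2 * m : ℕ) : ℝ) := by rw [hp]; push_cast; ring
  obtain ⟨e, he⟩ : ∃ e : ℝ, e = M ^ (1 / p) := ⟨_, rfl⟩
  have he0 : 0 ≤ e := by rw [he]; positivity
  have hep : e ^ (2 * m) = M := by
    rw [he, ← Real.rpow_natCast, ← Real.rpow_mul hM0, hpn, one_div, inv_mul_cancel₀, Real.rpow_one]
    rw [← hpn]; linarith
  have h1 : ∀ x ∈ T, nrm p (fun y => h y - g (y + x)) ≤ e := by
    intro x hx
    rw [hp, nrm_even, ← hp, he]
    apply Real.rpow_le_rpow _ _ (by positivity)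
    · exact sum_nonneg fun y _ => by rw [pow_mul]; positivity
    · rw [hg]; exact hT x hx
  have h2 : ∀ x ∈ T, ∀ x' ∈ T, Dl p g (x - x') ≤ 2 * e := by
    intro x hx x' hx'
    have e1 : Dl p g (x - x') = nrm p (fun y => g (y + x) - g (y + x')) := by
      unfold Dl
      rw [← nrm_translate p _ x']
      congr 1
      funext y
      have : y + x' + (x - x') = y + x := by abel
      rw [this]
    have e2 := nrm_add p hp1 (fun y => - (h y - g (y + x))) (fun y => h y - g (y + x'))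
    rw [nrm_neg] at e2
    have e3 : (fun y => - (h y - g (y + x)) + (h y - g (y + x'))) =
        fun y => g (y + x) - g (y + x') := by
      funext y; ring
    rw [e3, ← e1] at e2
    have e4 := h1 x hx
    have e5 := h1 x' hx'
    linarith
  have h3 := Dl_sum p hp1 g (2 * e) (fun j => u j - v j) (fun j => h2 _ (hu j) _ (hv j)) univ
  rw [card_univ, Fintype.card_fin] at h3
  obtain ⟨z, hz⟩ : ∃ z : G, z = ∑ j, (u j - v j) := ⟨_, rfl⟩
  rw [← hz] at h3 ⊢
  -- the sum over all points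
  have h4 : ∑ y, (g (y + z) - g y) ^ (2 * m) ≤ (2 * l : ℝ) ^ (2 * m) * M := by
    have e1 : Dl p g z ^ (2 * m) = ∑ y, (g (y + z) - g y) ^ (2 * m) := by
      unfold Dl
      rw [hp, nrm_even, ← Real.rpow_natCast, ← Real.rpow_mul, one_div]
      · have : ((2 * m : ℝ))⁻¹ * ((2 * m : ℕ) : ℝ) = 1 := by
          push_cast
          field_simp
        rw [this, Real.rpow_one]
      · exact sum_nonneg fun y _ => by rw [pow_mul]; positivity
    rw [← e1, ← hep, ← mul_pow]
    apply pow_le_pow_left₀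
    · unfold Dl nrm
      positivity
    · linarith
  -- the sum over `B`
  obtain ⟨S, hS⟩ : ∃ S : ℝ, S = ∑ y ∈ B, |g (y + z) - g y| := ⟨_, rfl⟩
  have hS0 : 0 ≤ S := by rw [hS]; exact sum_nonneg fun y _ => abs_nonneg _
  have h5 : S ^ (2 * m) ≤ (B.card : ℝ) ^ (2 * m - 1) * ((2 * l : ℝ) ^ (2 * m) * M) := by
    have e1 := pow_sum_div_card_le_sum_pow (s := B) (f := fun y => |g (y + z) - g y|)
      (fun y _ => abs_nonneg _) (2 * m - 1)
    have e2 : 2 * m - 1 + 1 = 2 * m := by omega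
    rw [e2, ← hS, div_le_iff₀ (by positivity)] at e1
    refine e1.trans ?_
    rw [mul_comm]
    apply mul_le_mul_of_nonneg_left _ (by positivity)
    refine le_trans ?_ h4
    calc ∑ y ∈ B, |g (y + z) - g y| ^ (2 * m) = ∑ y ∈ B, (g (y + z) - g y) ^ (2 * m) := by
          refine sum_congr rfl fun y _ => ?_
          rw [pow_mul, sq_abs, ← pow_mul]
      _ ≤ _ := sum_le_sum_of_subset_of_nonneg (subset_univ _) fun y _ _ => by
          rw [pow_mul]; positivity
  have h6 : S ≤ B.card / 8 := by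
    have e1 : S ^ (2 * m) ≤ (B.card / 8 : ℝ) ^ (2 * m) := by
      refine h5.trans ?_
      rw [div_pow, le_div_iff₀ (by positivity)]
      have e2 : (16 * l : ℝ) ^ (2 * m) = 8 ^ (2 * m) * (2 * l : ℝ) ^ (2 * m) := by
        rw [← mul_pow]; congr 1; ring
      have e3 : (B.card : ℝ) ^ (2 * m) = (B.card : ℝ) ^ (2 * m - 1) * B.card := by
        rw [← pow_succ]; congr 1; omega
      rw [e3]
      calc (B.card : ℝ) ^ (2 * m - 1) * ((2 * l : ℝ) ^ (2 * m) * M) * 8 ^ (2 * m)
          = (B.card : ℝ) ^ (2 * m - 1) * (M * (16 * l : ℝ) ^ (2 * m)) := by rw [e2]; ring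
        _ ≤ _ := mul_le_mul_of_nonneg_left hcond (by positivity)
    exact le_of_pow_le_pow_left₀ (by omega) (by positivity) e1
  have h7 : GG B 0 - GG B z ≤ S / B.card := by
    unfold GG
    rw [← sub_div]
    apply div_le_div_of_nonneg_right _ hBp.le
    rw [← sum_sub_distrib, hS]
    refine sum_le_sum fun y _ => ?_
    rw [← hg, add_zero]
    have := neg_abs_le (g (y + z) - g y)
    linarith
  rw [GG_zero B hB] at h7
  have h8 : S / B.card ≤ 1 / 8 := by
    rw [div_le_iff₀ hBp]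
    linarith
  linarith

end Pool.Agent.Q248.BR
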