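import Pool.Agent.Q248.BR.CS3
import Pool.Agent.TH858.GP.Dense2

/-! The sum set of the sum set: from almost periods to the large spectrum of the set of almost
periods. -/

set_option autoImplicit false

namespace Pool.Agent.Q248.BR

open Finset
open scoped Pointwise
open Pool.Agent.TH858.GP (ψ ψ_add ψ_zero ψ_norm ψ_neg wt wt_nonneg sum_wt)

variable {N : ℕ} [NeZero N]

lemma ind_fourier (E : Finset (ZMod N)) (x : ZMod N) :
    (N : ℂ) * ((ind E x : ℝ) : ℂ) = ∑ g : ZMod N, ∑ e ∈ E, ψ (g * (x - e)) := by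
  classical
  rw [sum_comm]
  have h1 : ∀ e ∈ E, ∑ g : ZMod N, ψ (g * (x - e)) = if x = e then (N : ℂ) else 0 := by
    intro e _
    have := AddChar.sum_mulShift (R' := ℂ) (x - e) (ZMod.isPrimitive_stdAddChar N)
    rw [ZMod.card] at this
    rw [this]
    simp only [sub_eq_zero]
    split_ifs <;> simp
  rw [sum_congr rfl h1, sum_ite_eq E x]
  unfold ind
  split_ifs <;> simp

/-- the tuples of elements of `T` -/
noncomputable def tup (T : Finset (ZMod N)) (l : ℕ) : Finset (Fin l → ZMod N) :=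
  Fintype.piFinset fun _ => T

/-- the count -/
noncomputable def FF (B T : Finset (ZMod N)) (l : ℕ) (w : ZMod N) : ℝ :=
  ∑ u ∈ tup T l, ∑ v ∈ tup T l, ∑ y ∈ B, ∑ a ∈ B, ind (B + B) (y + (∑ j, (u j - v j)) + a + w)

lemma ψ_sum {ι : Type*} (s : Finset ι) (f : ι → ZMod N) : ψ (∑ j ∈ s, f j) = ∏ j ∈ s, ψ (f j) := by
  classical
  induction s using Finset.induction_on with
  | empty => rw [sum_empty, prod_empty, ψ_zero]
  | insert i s hi ih => rw [sum_insert hi, prod_insert hi, ψ_add, ih]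

omit [NeZero N] in
lemma sum_tup (T : Finset (ZMod N)) (l : ℕ) (f : ZMod N → ℂ) :
    ∑ u ∈ tup T l, ∏ j, f (u j) = (∑ t ∈ T, f t) ^ l := by
  unfold tup
  rw [← Finset.prod_univ_sum (fun _ : Fin l => T) (fun _ a => f a), prod_const, card_univ,
    Fintype.card_fin]

lemma FF_fourier (B T : Finset (ZMod N)) (l : ℕ) (w : ZMod N) :
    (N : ℂ) * ((FF B T l w : ℝ) : ℂ) = ∑ g : ZMod N, (∑ e ∈ B + B, ψ (-(g * e))) *
      (∑ y ∈ B, ψ (g * y)) ^ 2 * ((wt T g : ℝ) : ℂ) ^ l * ψ (g * w) := by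
  have h1 : ∀ g : ZMod N, ((wt T g : ℝ) : ℂ) ^ l =
      (∑ u ∈ tup T l, ∏ j, ψ (g * u j)) * (∑ v ∈ tup T l, ∏ j, ψ (-(g * v j))) := by
    intro g
    rw [sum_tup T l fun t => ψ (g * t), sum_tup T l fun t => ψ (-(g * t)), ← mul_pow]
    congr 1
    have e1 : ∑ t ∈ T, ψ (-(g * t)) = (starRingEnd ℂ) (∑ t ∈ T, ψ (g * t)) := by
      rw [map_sum]
      exact sum_congr rfl fun t _ => ψ_neg _
    rw [e1, Complex.mul_conj, Complex.normSq_eq_norm_sq]
    rfl
  have h2 : ∀ (g : ZMod N) (u v : Fin l → ZMod N) (y a e : ZMod N),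
      ψ (g * (y + (∑ j, (u j - v j)) + a + w - e)) =
      (∏ j, ψ (g * u j)) * (∏ j, ψ (-(g * v j))) * ψ (g * y) * ψ (g * a) * ψ (-(g * e)) *
        ψ (g * w) := by
    intro g u v y a e
    have e1 : ∀ (f : Fin l → ZMod N), ψ (∑ j, f j) = ∏ j, ψ (f j) := by
      intro f
      exact ψ_sum univ f
    rw [← e1, ← e1, ← ψ_add, ← ψ_add, ← ψ_add, ← ψ_add, ← ψ_add]
    congr 1
    rw [sum_sub_distrib, Finset.sum_neg_distrib, ← mul_sum, ← mul_sum]
    ring
  unfold FF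
  push_cast
  simp only [mul_sum, ind_fourier]
  -- exchange the sums
  calc ∑ u ∈ tup T l, ∑ v ∈ tup T l, ∑ y ∈ B, ∑ a ∈ B, ∑ g : ZMod N, ∑ e ∈ B + B,
        ψ (g * (y + (∑ j, (u j - v j)) + a + w - e))
      = ∑ g : ZMod N, ∑ u ∈ tup T l, ∑ v ∈ tup T l, ∑ y ∈ B, ∑ a ∈ B, ∑ e ∈ B + B,
        ψ (g * (y + (∑ j, (u j - v j)) + a + w - e)) := by
        symm
        rw [sum_comm]
        refine sum_congr rfl fun u _ => ?_
        rw [sum_comm]
        refine sum_congr rfl fun v _ => ?_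
        rw [sum_comm]
        refine sum_congr rfl fun y _ => ?_
        rw [sum_comm]
    _ = _ := by
        refine sum_congr rfl fun g _ => ?_
        rw [h1]
        simp only [h2]
        simp only [← sum_mul, ← mul_sum]
        ring

/-- the contribution of the characters -/
lemma FF_diff (B T : Finset (ZMod N)) (l : ℕ) (w : ZMod N) (η : ℝ) (hη : 0 ≤ η)
    (hw : ∀ g, (T.card : ℝ) ^ 2 / 4 ≤ wt T g → ‖ψ (g * w) - 1‖ ≤ η) :
    FF B T l 0 - FF B T l w ≤
      (B + B).card * B.card * (T.card : ℝ) ^ (2 * l) * (η + 2 * (1 / 4) ^ l) := by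
  have hNpos : (0 : ℝ) < N := Nat.cast_pos.mpr (NeZero.pos N)
  have h1 := FF_fourier B T l w
  have h0 := FF_fourier B T l 0
  have hE : ∀ g : ZMod N, ‖∑ e ∈ B + B, ψ (-(g * e))‖ ≤ (B + B).card := by
    intro g
    refine (norm_sum_le _ _).trans ?_
    rw [sum_congr rfl fun y _ => ψ_norm _]
    simp
  have hTT : ∀ g : ZMod N, wt T g ≤ (T.card : ℝ) ^ 2 := by
    intro g
    unfold wt
    apply pow_le_pow_left₀ (norm_nonneg _)
    refine (norm_sum_le _ _).trans ?_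
    rw [sum_congr rfl fun y _ => ψ_norm _]
    simp
  have h2 : (N : ℂ) * (((FF B T l w - FF B T l 0 : ℝ)) : ℂ) = ∑ g : ZMod N,
      (∑ e ∈ B + B, ψ (-(g * e))) * (∑ y ∈ B, ψ (g * y)) ^ 2 * ((wt T g : ℝ) : ℂ) ^ l *
        (ψ (g * w) - 1) := by
    push_cast
    rw [mul_sub, h1, h0, ← sum_sub_distrib]
    refine sum_congr rfl fun g _ => ?_
    rw [mul_zero, ψ_zero]
    ring
  have h3 : (N : ℝ) * |FF B T l w - FF B T l 0| ≤
      ∑ g : ZMod N, (B + B).card * wt B g * ((T.card : ℝ) ^ (2 * l) * (η + 2 * (1 / 4) ^ l)) := by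
    have e1 : (N : ℝ) * |FF B T l w - FF B T l 0| =
        ‖(N : ℂ) * (((FF B T l w - FF B T l 0 : ℝ)) : ℂ)‖ := by
      rw [norm_mul, Complex.norm_real, Real.norm_eq_abs, Complex.norm_natCast]
    rw [e1, h2]
    refine (norm_sum_le _ _).trans (sum_le_sum fun g _ => ?_)
    rw [norm_mul, norm_mul, norm_mul, norm_pow, norm_pow, Complex.norm_real,
      Real.norm_of_nonneg (wt_nonneg T g)]
    have e2 : wt T g ^ l * ‖ψ (g * w) - 1‖ ≤ (T.card : ℝ) ^ (2 * l) * (η + 2 * (1 / 4) ^ l) := by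
      by_cases hg : (T.card : ℝ) ^ 2 / 4 ≤ wt T g
      · have e3 := hw g hg
        have e4 : wt T g ^ l ≤ (T.card : ℝ) ^ (2 * l) := by
          rw [pow_mul]
          exact pow_le_pow_left₀ (wt_nonneg T g) (hTT g) l
        have e5 : ‖ψ (g * w) - 1‖ ≤ η + 2 * (1 / 4) ^ l := by
          have : (0 : ℝ) ≤ 2 * (1 / 4) ^ l := by positivity
          linarith
        exact mul_le_mul e4 e5 (norm_nonneg _) (by positivity)
      · push Not at hg
        have e4 : wt T g ^ l ≤ (T.card : ℝ) ^ (2 * l) * (1 / 4) ^ l := by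
          rw [pow_mul, ← mul_pow]
          apply pow_le_pow_left₀ (wt_nonneg T g)
          linarith
        have e5 : ‖ψ (g * w) - 1‖ ≤ 2 := by
          refine (norm_sub_le _ _).trans ?_
          rw [ψ_norm, norm_one]
          norm_num
        calc wt T g ^ l * ‖ψ (g * w) - 1‖ ≤ ((T.card : ℝ) ^ (2 * l) * (1 / 4) ^ l) * 2 :=
              mul_le_mul e4 e5 (norm_nonneg _) (by positivity)
          _ = (T.card : ℝ) ^ (2 * l) * (2 * (1 / 4) ^ l) := by ring
          _ ≤ _ := by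
              apply mul_le_mul_of_nonneg_left _ (by positivity)
              linarith
    calc ‖∑ e ∈ B + B, ψ (-(g * e))‖ * ‖∑ y ∈ B, ψ (g * y)‖ ^ 2 * wt T g ^ l * ‖ψ (g * w) - 1‖
        = (‖∑ e ∈ B + B, ψ (-(g * e))‖ * wt B g) * (wt T g ^ l * ‖ψ (g * w) - 1‖) := by
          unfold wt; ring
      _ ≤ _ := by
          apply mul_le_mul _ e2 (by have := wt_nonneg T g; positivity) (by have := wt_nonneg B g; positivity)
          exact mul_le_mul_of_nonneg_right (hE g) (wt_nonneg B g)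
  have h4 : ∑ g : ZMod N, (B + B).card * wt B g * ((T.card : ℝ) ^ (2 * l) * (η + 2 * (1 / 4) ^ l)) =
      N * ((B + B).card * B.card * (T.card : ℝ) ^ (2 * l) * (η + 2 * (1 / 4) ^ l)) := by
    rw [← sum_mul, ← mul_sum, sum_wt]
    ring
  rw [h4] at h3
  have h5 := le_of_mul_le_mul_left h3 hNpos
  have h6 := neg_abs_le (FF B T l w - FF B T l 0)
  linarith

/-- from almost periods to the large spectrum -/
theorem four_sum (B T : Finset (ZMod N)) (hB : B.Nonempty) (hT : T.Nonempty) (l : ℕ)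
    (hG : ∀ u v : Fin l → ZMod N, (∀ j, u j ∈ T) → (∀ j, v j ∈ T) → 7 / 8 ≤ GG B (∑ j, (u j - v j)))
    (η : ℝ) (hη : 0 ≤ η)
    (hsm : ((B + B).card : ℝ) * (η + 2 * (1 / 4) ^ l) ≤ B.card / 8) (w : ZMod N)
    (hw : ∀ g, (T.card : ℝ) ^ 2 / 4 ≤ wt T g → ‖ψ (g * w) - 1‖ ≤ η) :
    ∃ a₁ ∈ B, ∃ a₂ ∈ B, ∃ a₃ ∈ B, ∃ a₄ ∈ B, w = a₁ + a₂ - a₃ - a₄ := by
  classical
  have hBp : (0 : ℝ) < B.card := by exact_mod_cast hB.card_pos
  have hTp : (0 : ℝ) < T.card := by exact_mod_cast hT.card_pos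
  have htup : ((tup T l).card : ℝ) = (T.card : ℝ) ^ l := by
    unfold tup
    rw [Fintype.card_piFinset, prod_const, card_univ, Fintype.card_fin]
    push_cast; rfl
  obtain ⟨Q, hQ⟩ : ∃ Q : ℝ, Q = (T.card : ℝ) ^ (2 * l) * (B.card : ℝ) ^ 2 := ⟨_, rfl⟩
  have hQ0 : 0 < Q := by rw [hQ]; positivity
  have h0 : 7 / 8 * Q ≤ FF B T l 0 := by
    have e1 : ∀ u ∈ tup T l, ∀ v ∈ tup T l, 7 / 8 * (B.card : ℝ) ^ 2 ≤
        ∑ y ∈ B, ∑ a ∈ B, ind (B + B) (y + (∑ j, (u j - v j)) + a + 0) := by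
      intro u hu v hv
      have e2 := hG u v (Fintype.mem_piFinset.1 hu) (Fintype.mem_piFinset.1 hv)
      unfold GG prp at e2
      rw [← sum_div, div_div, le_div_iff₀ (by positivity)] at e2
      simp only [add_zero]
      rw [sq]
      exact e2
    unfold FF
    calc 7 / 8 * Q = ∑ _u ∈ tup T l, ∑ _v ∈ tup T l, 7 / 8 * (B.card : ℝ) ^ 2 := by
          rw [sum_const, sum_const, nsmul_eq_mul, nsmul_eq_mul, htup, hQ]
          ring
      _ ≤ _ := sum_le_sum fun u hu => sum_le_sum fun v hv => e1 u hu v hv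
  have h1 : 3 / 4 * Q ≤ FF B T l w := by
    have e1 := FF_diff B T l w η hη hw
    have e2 : (B + B).card * B.card * (T.card : ℝ) ^ (2 * l) * (η + 2 * (1 / 4) ^ l) ≤ Q / 8 := by
      calc (B + B).card * B.card * (T.card : ℝ) ^ (2 * l) * (η + 2 * (1 / 4) ^ l)
          = (B.card * (T.card : ℝ) ^ (2 * l)) * ((B + B).card * (η + 2 * (1 / 4) ^ l)) := by ring
        _ ≤ (B.card * (T.card : ℝ) ^ (2 * l)) * (B.card / 8) :=
            mul_le_mul_of_nonneg_left hsm (by positivity)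
        _ = Q / 8 := by rw [hQ]; ring
    linarith
  -- a tuple for which both sums are in the sum set
  have h2 : ∃ u ∈ tup T l, ∃ v ∈ tup T l, ∃ y ∈ B, ∃ a ∈ B,
      y + (∑ j, (u j - v j)) + a + 0 ∈ B + B ∧ y + (∑ j, (u j - v j)) + a + w ∈ B + B := by
    by_contra hcon
    push Not at hcon
    have e1 : FF B T l 0 + FF B T l w ≤ Q := by
      unfold FF
      simp only [← sum_add_distrib]
      calc _ ≤ ∑ _u ∈ tup T l, ∑ _v ∈ tup T l, ∑ _y ∈ B, ∑ _a ∈ B, (1 : ℝ) := by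
            refine sum_le_sum fun u hu => sum_le_sum fun v hv => sum_le_sum fun y hy =>
              sum_le_sum fun a ha => ?_
            have e2 := hcon u hu v hv y hy a ha
            unfold ind
            by_cases e3 : y + (∑ j, (u j - v j)) + a + 0 ∈ B + B
            · rw [if_pos e3, if_neg (e2 e3)]; norm_num
            · rw [if_neg e3]
              split_ifs <;> norm_num
        _ = Q := by
            simp only [sum_const, nsmul_eq_mul, mul_one]
            rw [htup, hQ]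
            ring
    linarith
  obtain ⟨u, _, v, _, y, _, a, _, h3, h4⟩ := h2
  obtain ⟨b₁, hb₁, b₂, hb₂, e1⟩ := mem_add.1 h3
  obtain ⟨b₃, hb₃, b₄, hb₄, e2⟩ := mem_add.1 h4
  refine ⟨b₃, hb₃, b₄, hb₄, b₁, hb₁, b₂, hb₂, ?_⟩
  have : w = (y + (∑ j, (u j - v j)) + a + w) - (y + (∑ j, (u j - v j)) + a + 0) := by ring
  rw [this, ← e1, ← e2]
  ring

end Pool.Agent.Q248.BR
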