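import Pool.Agent.Q248.BR.CH

/-! Sets which are dense on a translate of a proper progression: a Bohr set whose dimension depends
polynomially on the logarithm of the relative density. -/

set_option autoImplicit false

namespace Pool.Agent.Q248.BR

open Finset
open scoped Pointwise
open Pool.Agent.TH858
open Pool.Agent.TH858.GP (ψ ψ_add ψ_zero ψ_norm ψ_neg wt wt_nonneg sum_wt norm_ψ_sub_one_add
  norm_ψ_sub_one_neg norm_ψ_sub_one_sum norm_ψ_sub_one_le ev box mem_box card_box XX card_XX_le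
  sub_mem_XX add_mem_XX shift_prog box_mono general)

variable {N : ℕ} [NeZero N]

lemma nint_two (x : ℝ) (h : CB.nint x ≤ 1 / 16) : CB.nint (2 * x) = 2 * CB.nint x := by
  have h1 : CB.nint (2 * x) = CB.nint (2 * (x - round x)) := by
    have := CB.nint_add_int (2 * (x - round x)) (2 * round x)
    rw [← this]
    congr 1
    push_cast
    ring
  have h2 : |x - round x| ≤ 1 / 16 := h
  rw [h1, CB.nint_of_small]
  · rw [abs_mul, abs_two]
    rfl
  · rw [abs_mul, abs_two]
    linarith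

lemma nn_two (c : ZMod N) (h : CB.nn c ≤ 1 / 16) : CB.nn (2 * c) = 2 * CB.nn c := by
  have h1 := CB.nint_eq_nn (N := N) (2 * (c.val : ℤ)) (2 * c) (by
    push_cast
    rw [ZMod.natCast_zmod_val])
  have h2 : ((2 * (c.val : ℤ) : ℤ) : ℝ) / N = 2 * ((c.val : ℝ) / N) := by
    push_cast
    ring
  rw [← h1, h2]
  exact nint_two _ h

lemma nn_pow (c : ZMod N) (s : ℕ) (h : ∀ i ≤ s, CB.nn (2 ^ i * c) ≤ 1 / 16) :
    CB.nn c ≤ 1 / 16 / 2 ^ s := by
  have h1 : ∀ i ≤ s, CB.nn (2 ^ i * c) = 2 ^ i * CB.nn c := by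
    intro i hi
    induction i with
    | zero => simp
    | succ i ih =>
      have e1 := nn_two (2 ^ i * c) (h i (by omega))
      rw [ih (by omega)] at e1
      have e2 : (2 : ZMod N) ^ (i + 1) * c = 2 * (2 ^ i * c) := by ring
      rw [e2, e1]
      ring
  have h2 := h s le_rfl
  rw [h1 s le_rfl] at h2
  rw [le_div_iff₀ (by positivity)]
  linarith

lemma exp_one_le : Real.exp 1 ≤ 2.7182818286 := Real.exp_one_lt_d9.le

lemma exp_nat_le (q : ℕ) : Real.exp q ≤ 4 ^ q := by
  have h1 : Real.exp q = Real.exp 1 ^ q := by rw [← Real.exp_nat_mul, mul_one]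
  rw [h1]
  apply pow_le_pow_left₀ (Real.exp_pos _).le
  have := exp_one_le
  linarith

lemma le_two_pow (q : ℕ) : (q : ℝ) ≤ 2 ^ q := by
  have : q < 2 ^ q := Nat.lt_two_pow_self
  exact_mod_cast this.le

omit [NeZero N] in
lemma card_multiple {d : ℕ} (a : Fin d → ZMod N) (L L' : Fin d → ℕ) (hinj : Set.InjOn (ev a) (box L))
    (c : ℕ) (hc : 1 ≤ c) (hL : ∀ i, L' i ≤ c * L i) :
    ((XX a L').card : ℝ) ≤ (c : ℝ) ^ d * (XX a L).card := by
  have h1 : (XX a L).card = ∏ i, (2 * L i + 1) := by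
    unfold XX
    rw [card_image_of_injOn hinj, card_box]
  have h2 : (XX a L').card ≤ c ^ d * (XX a L).card := by
    rw [h1]
    refine (card_XX_le a L').trans ?_
    calc ∏ i, (2 * L' i + 1) ≤ ∏ i, (c * (2 * L i + 1)) := by
          refine prod_le_prod' fun i _ => ?_
          have := hL i
          nlinarith
      _ = c ^ d * ∏ i, (2 * L i + 1) := by
          rw [prod_mul_distrib, prod_const, card_univ, Fintype.card_fin]
  exact_mod_cast h2

/-- **A set that is dense on a translate of a proper progression**: `2A - 2A` contains a Bohr set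
whose dimension is, up to the term coming from the density of the progression, at most
`2 ^ 24 q ^ 5`, if `32 · 3 ^ d ≤ δ e ^ q`. -/
theorem strong_dense {d : ℕ} (a : Fin d → ZMod N) (L : Fin d → ℕ)
    (hinj : Set.InjOn (ev a) (box L)) (R δ : ℝ) (hR : (d : ℝ) + 2 ≤ R) (hδ : 0 < δ) (hδ1 : δ ≤ 1)
    (q : ℕ) (hq : 32 * 3 ^ d ≤ δ * Real.exp q)
    (A : Finset (ZMod N)) (t : ZMod N) (hA : ∀ y ∈ A, y - t ∈ XX a L)
    (hdens : δ * (XX a L).card ≤ A.card) :
    ∃ Γ : Finset (ZMod N),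
      (Γ.card : ℝ) ≤ 5 * (Real.log (N / (XX a L).card) / Real.log R) + 2 ^ 24 * (q : ℝ) ^ 5 ∧
      ∀ x : ZMod N, (∀ g ∈ Γ, CB.nn (g * x) ≤ 1 / (8 * R)) →
        ∃ a₁ ∈ A, ∃ a₂ ∈ A, ∃ a₃ ∈ A, ∃ a₄ ∈ A, x = a₁ + a₂ - a₃ - a₄ := by
  classical
  have hNpos : (0 : ℝ) < N := Nat.cast_pos.mpr (NeZero.pos N)
  have hd0 : (0 : ℝ) ≤ d := Nat.cast_nonneg d
  have hR2 : 2 ≤ R := by linarith
  have hR0 : 0 < R := by linarith
  have hlog2 := Real.log_two_gt_d9
  have hlogR2 : Real.log 2 ≤ Real.log R := Real.log_le_log (by norm_num) hR2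
  have hlogR : 0 < Real.log R := by linarith
  have hXne : ∀ M : Fin d → ℕ, (XX a M).Nonempty := fun M => by
    have : (0 : Fin d → ℤ) ∈ box M := by rw [mem_box]; intro i; simp
    exact ⟨_, mem_image_of_mem (ev a) this⟩
  obtain ⟨X, hX⟩ : ∃ X : Finset (ZMod N), X = XX a L := ⟨_, rfl⟩
  have hXpos : (0 : ℝ) < X.card := by rw [hX]; exact_mod_cast (hXne L).card_pos
  rw [← hX] at hdens
  have hApos : (0 : ℝ) < A.card := lt_of_lt_of_le (by positivity) hdens
  have hAne : A.Nonempty := by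
    rw [← card_pos]
    exact_mod_cast hApos
  -- the size of `q`
  have h3d : (1 : ℝ) ≤ 3 ^ d := one_le_pow₀ (by norm_num)
  have hexpq : 32 * (3 : ℝ) ^ d ≤ Real.exp q := by
    refine hq.trans ?_
    exact mul_le_of_le_one_left (Real.exp_pos _).le hδ1
  have hq1 : 1 ≤ q := by
    by_contra h
    have h0 : q = 0 := by omega
    rw [h0, Nat.cast_zero, Real.exp_zero] at hexpq
    linarith
  have hqR : (1 : ℝ) ≤ q := by exact_mod_cast hq1
  have hdq : (d : ℝ) ≤ q := by
    have h1 : Real.exp d ≤ 3 ^ d := by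
      have h2 : Real.exp d = Real.exp 1 ^ d := by rw [← Real.exp_nat_mul, mul_one]
      rw [h2]
      apply pow_le_pow_left₀ (Real.exp_pos _).le
      have := exp_one_le
      linarith
    have h2 : Real.exp d ≤ Real.exp q := by linarith
    exact Real.exp_le_exp.1 h2
  obtain ⟨Q, hQ⟩ : ∃ Q : ℝ, Q = Real.exp q / 32 := ⟨_, rfl⟩
  have hQ0 : 0 < Q := by rw [hQ]; positivity
  have hXA : (3 : ℝ) ^ d * X.card ≤ Q * A.card := by
    have h1 : 32 * ((3 : ℝ) ^ d * X.card) ≤ Real.exp q * A.card := by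
      calc 32 * ((3 : ℝ) ^ d * X.card) = (32 * 3 ^ d) * X.card := by ring
        _ ≤ (δ * Real.exp q) * X.card := mul_le_mul_of_nonneg_right hq hXpos.le
        _ = Real.exp q * (δ * X.card) := by ring
        _ ≤ Real.exp q * A.card := mul_le_mul_of_nonneg_left hdens (Real.exp_pos _).le
    rw [hQ]
    linarith
  -- the sum sets
  have hcard2 : ((XX a fun i => L i + L i).card : ℝ) ≤ Q * A.card := by
    refine le_trans ?_ hXA
    refine (card_multiple a L _ hinj 2 (by norm_num) fun i => by omega).trans ?_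
    rw [← hX]
    apply mul_le_mul_of_nonneg_right _ hXpos.le
    push_cast
    exact pow_le_pow_left₀ (by norm_num) (by norm_num) d
  have hcard3 : ((XX a fun i => (L i + L i) + L i).card : ℝ) ≤ Q * A.card := by
    refine le_trans ?_ hXA
    refine (card_multiple a L _ hinj 3 (by norm_num) fun i => by omega).trans ?_
    rw [← hX]
    push_cast
    exact le_rfl
  have hAX : ((A + X).card : ℝ) ≤ Q * A.card := by
    refine le_trans ?_ hcard2
    have h3 : A + X ⊆ (XX a (fun i => L i + L i)).image fun z => t + z := by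
      intro z hz
      rw [mem_add] at hz
      obtain ⟨y, hy, y', hy', rfl⟩ := hz
      rw [mem_image]
      exact ⟨(y - t) + y', add_mem_XX a L L _ _ (hA _ hy) (by rw [← hX]; exact hy'), by ring⟩
    have h4 := (card_le_card h3).trans card_image_le
    exact_mod_cast h4
  have hAAsub : ∀ z ∈ A + A, z - (t + t) ∈ XX a (fun i => L i + L i) := by
    intro z hz
    rw [mem_add] at hz
    obtain ⟨y, hy, y', hy', rfl⟩ := hz
    have := add_mem_XX a L L _ _ (hA _ hy) (hA _ hy')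
    have e : y + y' - (t + t) = (y - t) + (y' - t) := by ring
    rw [e]
    exact this
  have hAA : ((A + A).card : ℝ) ≤ Q * A.card := by
    refine le_trans ?_ hcard2
    have h3 : A + A ⊆ (XX a (fun i => L i + L i)).image fun z => (t + t) + z := by
      intro z hz
      rw [mem_image]
      exact ⟨z - (t + t), hAAsub z hz, by ring⟩
    have h4 := (card_le_card h3).trans card_image_le
    exact_mod_cast h4
  have hAAA : ((A + A - A).card : ℝ) ≤ Q * A.card := by
    refine le_trans ?_ hcard3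
    have h3 : A + A - A ⊆ (XX a (fun i => (L i + L i) + L i)).image fun z => t + z := by
      intro z hz
      rw [mem_sub] at hz
      obtain ⟨y, hy, y', hy', rfl⟩ := hz
      rw [mem_image]
      refine ⟨(y - (t + t)) - (y' - t), sub_mem_XX a (fun i => L i + L i) L _ _ (hAAsub y hy) (hA _ hy'), by ring⟩
    have h4 := (card_le_card h3).trans card_image_le
    exact_mod_cast h4
  -- almost periods
  obtain ⟨k, hk⟩ : ∃ k : ℕ, k = 2 ^ 14 * q ^ 3 := ⟨_, rfl⟩
  have hk0 : 0 < k := by rw [hk]; positivity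
  have hkR : (k : ℝ) = 2 ^ 14 * (q : ℝ) ^ 3 := by rw [hk]; push_cast; ring
  have hcond : 2 * (((A + A - A).card : ℝ) * (2 * Real.exp 1 * q / k) ^ q) * (16 * q : ℝ) ^ (2 * q) ≤
      A.card := by
    have e1 : (2 * Real.exp 1 * q / k) ^ q * (16 * q : ℝ) ^ (2 * q) = (Real.exp 1 / 32) ^ q := by
      rw [pow_mul, ← mul_pow]
      congr 1
      rw [hkR]
      field_simp
      ring
    have e2 : Real.exp q * (Real.exp 1 / 32) ^ q ≤ 1 := by
      have e3 : Real.exp q = Real.exp 1 ^ q := by rw [← Real.exp_nat_mul, mul_one]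
      rw [e3, ← mul_pow]
      apply pow_le_one₀ (by positivity)
      have := exp_one_le
      have h0 := Real.exp_pos 1
      nlinarith
    calc 2 * (((A + A - A).card : ℝ) * (2 * Real.exp 1 * q / k) ^ q) * (16 * q : ℝ) ^ (2 * q)
        = 2 * ((A + A - A).card : ℝ) * ((2 * Real.exp 1 * q / k) ^ q * (16 * q : ℝ) ^ (2 * q)) := by ring
      _ ≤ 2 * (Q * A.card) * (Real.exp 1 / 32) ^ q := by
          rw [e1]
          apply mul_le_mul_of_nonneg_right _ (by positivity)
          linarith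
      _ = (Real.exp q * (Real.exp 1 / 32) ^ q) * (A.card / 16) := by rw [hQ]; ring
      _ ≤ 1 * (A.card / 16) := mul_le_mul_of_nonneg_right e2 (by positivity)
      _ ≤ A.card := by linarith
  obtain ⟨T, hTX, hTne, hTcard, hTG⟩ := almost_one A X hAne (by rw [hX]; exact hXne L) k q q hk0
    (by omega) (by omega) hcond
  have hTp : (0 : ℝ) < T.card := by exact_mod_cast hTne.card_pos
  -- the size of the set of almost periods
  obtain ⟨M, hM⟩ : ∃ M : ℝ, M = Real.exp (q * k) := ⟨_, rfl⟩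
  have hXM : (X.card : ℝ) ≤ M * T.card := by
    have e1 : (X.card : ℝ) * (A.card : ℝ) ^ k ≤ 2 * T.card * (Q * A.card) ^ k := by
      refine hTcard.trans ?_
      apply mul_le_mul_of_nonneg_left _ (by positivity)
      exact pow_le_pow_left₀ (by positivity) hAX k
    have e2 : (X.card : ℝ) ≤ 2 * T.card * Q ^ k := by
      have e3 : (X.card : ℝ) * (A.card : ℝ) ^ k ≤ (2 * T.card * Q ^ k) * (A.card : ℝ) ^ k := by
        calc _ ≤ _ := e1
          _ = _ := by rw [mul_pow]; ring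
      exact le_of_mul_le_mul_right e3 (by positivity)
    have e3 : 2 * Q ^ k ≤ M := by
      rw [hQ, hM, div_pow]
      have e4 : Real.exp q ^ k = Real.exp (q * k) := by rw [← Real.exp_nat_mul]; congr 1; ring
      rw [e4, mul_div_assoc', div_le_iff₀ (by positivity)]
      have e5 : (2 : ℝ) ≤ 32 ^ k := by
        calc (2 : ℝ) ≤ 32 ^ 1 := by norm_num
          _ ≤ 32 ^ k := pow_le_pow_right₀ (by norm_num) hk0
      have := Real.exp_pos (q * k : ℝ)
      nlinarith
    calc (X.card : ℝ) ≤ 2 * T.card * Q ^ k := e2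
      _ = (2 * Q ^ k) * T.card := by ring
      _ ≤ M * T.card := mul_le_mul_of_nonneg_right e3 hTp.le
  -- Chang's theorem
  obtain ⟨n₀, hn₀⟩ : ∃ n₀ : ℕ, n₀ = 2 ^ 18 * q ^ 4 := ⟨_, rfl⟩
  have hn₀R : (n₀ : ℝ) = 2 ^ 18 * (q : ℝ) ^ 4 := by rw [hn₀]; push_cast; ring
  have hq4 : (1 : ℝ) ≤ (q : ℝ) ^ 4 := one_le_pow₀ hqR
  have hlogM : 8 * Real.log (2 * M) < n₀ := by
    rw [hM, Real.log_mul (by norm_num) (Real.exp_pos _).ne', Real.log_exp, hn₀R, hkR]
    have := Real.log_two_lt_d9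
    have e1 : (q : ℝ) * (2 ^ 14 * (q : ℝ) ^ 3) = 2 ^ 14 * (q : ℝ) ^ 4 := by ring
    rw [e1]
    nlinarith
  obtain ⟨Λ, hΛcard, hΛ⟩ := local_chang X T hTX hTne M hXM n₀ hlogM
  have hΛn : (Λ.card : ℝ) ≤ n₀ := hΛcard.trans hlogM.le
  -- the short progression
  obtain ⟨ρ, hρ⟩ : ∃ ρ : ℕ, ρ = 4 ^ n₀ := ⟨_, rfl⟩
  have hρ0 : 0 < ρ := by rw [hρ]; positivity
  have hρR : (ρ : ℝ) = 4 ^ n₀ := by rw [hρ]; push_cast; rfl
  obtain ⟨L₃, hL₃⟩ : ∃ L₃ : Fin d → ℕ, L₃ = fun i => L i / ρ := ⟨_, rfl⟩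
  have hL₃1 : ∀ i, ρ * L₃ i ≤ L i := fun i => by rw [hL₃]; exact Nat.mul_div_le _ _
  have hL₃2 : ∀ i, L i < ρ * (L₃ i + 1) := fun i => by
    rw [hL₃]; exact Nat.lt_mul_div_succ _ hρ0
  have hL₃le : ∀ i, L₃ i ≤ L i := fun i => by
    have h1 := hL₃1 i
    have h2 : L₃ i ≤ ρ * L₃ i := Nat.le_mul_of_pos_left _ hρ0
    omega
  have hinj₃ : Set.InjOn (ev a) (box L₃) := hinj.mono (box_mono L L₃ hL₃le)
  have hX₃pos : (0 : ℝ) < (XX a L₃).card := by exact_mod_cast (hXne L₃).card_pos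
  obtain ⟨Γ₀, hΓ₀, hΓ₀'⟩ := general a L₃ hinj₃ R hR
  obtain ⟨s, hs⟩ : ∃ s : ℕ, s = 18 + 6 * q := ⟨_, rfl⟩
  obtain ⟨Γ₁, hΓ₁⟩ : ∃ Γ₁ : Finset (ZMod N), Γ₁ = (Λ ×ˢ range (s + 1)).image fun p => 2 ^ p.2 * p.1 :=
    ⟨_, rfl⟩
  refine ⟨Γ₀ ∪ Γ₁, ?_, ?_⟩
  · -- the number of frequencies
    have hcard : (X.card : ℝ) ≤ (2 * (ρ : ℝ)) ^ d * (XX a L₃).card := by
      have h1 : (XX a L).card = ∏ i, (2 * L i + 1) := by
        unfold XX
        rw [card_image_of_injOn hinj, card_box]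
      have h2 : (XX a L₃).card = ∏ i, (2 * L₃ i + 1) := by
        unfold XX
        rw [card_image_of_injOn hinj₃, card_box]
      have h3 : (2 * (ρ : ℝ)) ^ d = ∏ _i : Fin d, (2 * (ρ : ℝ)) := by simp
      rw [hX, h1, h2, h3]
      push_cast
      rw [← prod_mul_distrib]
      refine prod_le_prod (fun i _ => by positivity) fun i _ => ?_
      have h4 : (L i : ℝ) + 1 ≤ ρ * (L₃ i + 1) := by exact_mod_cast hL₃2 i
      have h5 : (0 : ℝ) ≤ ρ * L₃ i := by positivity
      nlinarith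
    have hlog : Real.log (N / (XX a L₃).card) ≤ Real.log (N / X.card) + q * (3 * n₀ * Real.log R) := by
      have h1 : (N : ℝ) / (XX a L₃).card ≤ (N / X.card) * (2 * (ρ : ℝ)) ^ d := by
        rw [div_mul_eq_mul_div, div_le_div_iff₀ hX₃pos hXpos, mul_assoc]
        exact mul_le_mul_of_nonneg_left hcard hNpos.le
      have hρ0R : (0 : ℝ) < ρ := by exact_mod_cast hρ0
      have h2 := Real.log_le_log (by positivity) h1
      rw [Real.log_mul (by positivity) (by positivity), Real.log_pow] at h2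
      have h3 : Real.log (2 * (ρ : ℝ)) ≤ 3 * n₀ * Real.log R := by
        have e1 : Real.log (2 * (ρ : ℝ)) = (2 * n₀ + 1) * Real.log 2 := by
          rw [hρR]
          have : (2 : ℝ) * 4 ^ n₀ = 2 ^ (2 * n₀ + 1) := by
            rw [pow_succ, pow_mul]; norm_num; ring
          rw [this, Real.log_pow]
          push_cast
          ring
        rw [e1]
        have e2 : (1 : ℝ) ≤ n₀ := by rw [hn₀R]; nlinarith
        have e3 : ((2 * n₀ + 1 : ℝ)) * Real.log 2 ≤ (3 * n₀) * Real.log R := by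
          apply mul_le_mul (by linarith) hlogR2 (by linarith) (by linarith)
        exact e3
      have h4 : (0 : ℝ) ≤ 3 * n₀ * Real.log R := by positivity
      have h5 : (d : ℝ) * Real.log (2 * (ρ : ℝ)) ≤ q * (3 * n₀ * Real.log R) := by
        calc (d : ℝ) * Real.log (2 * (ρ : ℝ)) ≤ d * (3 * n₀ * Real.log R) :=
              mul_le_mul_of_nonneg_left h3 hd0
          _ ≤ _ := mul_le_mul_of_nonneg_right hdq h4
      linarith
    have h1 : Real.log (N / (XX a L₃).card) / Real.log R ≤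
        Real.log (N / X.card) / Real.log R + q * (3 * n₀) := by
      rw [div_add' _ _ _ hlogR.ne']
      apply div_le_div_of_nonneg_right _ hlogR.le
      calc _ ≤ _ := hlog
        _ = _ := by ring
    have h2 : ((Γ₀ ∪ Γ₁).card : ℝ) ≤ Γ₀.card + Γ₁.card := by exact_mod_cast card_union_le Γ₀ Γ₁
    have h3 : (Γ₁.card : ℝ) ≤ n₀ * (19 + 6 * q) := by
      have e1 : Γ₁.card ≤ Λ.card * (s + 1) := by
        rw [hΓ₁]
        refine card_image_le.trans ?_
        rw [card_product, card_range]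
      have e2 : (Γ₁.card : ℝ) ≤ Λ.card * (s + 1) := by exact_mod_cast e1
      have e3 : (s : ℝ) + 1 = 19 + 6 * q := by rw [hs]; push_cast; ring
      rw [e3] at e2
      exact e2.trans (mul_le_mul_of_nonneg_right hΛn (by positivity))
    rw [hX] at h1
    have h4 : (n₀ : ℝ) * (19 + 6 * q) ≤ 25 * (2 ^ 18 * (q : ℝ) ^ 5) := by
      rw [hn₀R]
      have e1 : (19 + 6 * (q : ℝ)) ≤ 25 * q := by linarith
      calc 2 ^ 18 * (q : ℝ) ^ 4 * (19 + 6 * q) ≤ 2 ^ 18 * (q : ℝ) ^ 4 * (25 * q) :=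
            mul_le_mul_of_nonneg_left e1 (by positivity)
        _ = _ := by ring
    have h5 : (q : ℝ) * (3 * n₀) = 3 * (2 ^ 18 * (q : ℝ) ^ 5) := by rw [hn₀R]; ring
    have h6 : (175 : ℝ) * d + 1 ≤ 176 * (q : ℝ) ^ 5 := by
      have e1 : (q : ℝ) ≤ (q : ℝ) ^ 5 := le_self_pow₀ hqR (by norm_num)
      linarith
    have h7 : (0 : ℝ) ≤ (q : ℝ) ^ 5 := by positivity
    rw [h5] at h1
    linarith
  · intro x hx
    have hx₃ : x ∈ XX a L₃ := hΓ₀' x fun g hg => hx g (mem_union_left _ hg)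
    have h8R : 1 / (8 * R) ≤ 1 / 16 := by
      apply one_div_le_one_div_of_le (by norm_num)
      linarith
    -- the characters of `Λ`
    have hΛx : ∀ l ∈ Λ, ‖ψ (l * x) - 1‖ ≤ Real.exp (-q) / n₀ := by
      intro l hl
      have e1 : CB.nn (l * x) ≤ 1 / 16 / 2 ^ s := by
        refine nn_pow (l * x) s fun i hi => ?_
        have e2 := hx (2 ^ i * l) (mem_union_right _ (by
          rw [hΓ₁, mem_image]
          exact ⟨(l, i), mem_product.2 ⟨hl, mem_range.2 (by omega)⟩, rfl⟩))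
        rw [← mul_assoc]
        exact e2.trans h8R
      refine (norm_ψ_sub_one_le _).trans ?_
      have hn₀0 : (0 : ℝ) < n₀ := by rw [hn₀R]; positivity
      rw [le_div_iff₀ hn₀0, Real.exp_neg, ← one_div, le_div_iff₀ (Real.exp_pos _)]
      have e3 : (n₀ : ℝ) ≤ 2 ^ 18 * (2 ^ q) ^ 4 := by
        rw [hn₀R]
        apply mul_le_mul_of_nonneg_left _ (by positivity)
        exact pow_le_pow_left₀ (by positivity) (le_two_pow q) 4
      have e4 := exp_nat_le q
      have e5 : (2 : ℝ) ^ s = 2 ^ 18 * (2 ^ q) ^ 4 * 4 ^ q := by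
        rw [hs, pow_add]
        have : (4 : ℝ) ^ q = (2 ^ q) ^ 2 := by rw [← pow_mul, mul_comm q 2, pow_mul]; norm_num
        rw [this, mul_assoc]
        congr 1
        rw [← pow_add, ← pow_mul]
        congr 1
        ring
      have e6 : (n₀ : ℝ) * Real.exp q ≤ 2 ^ s := by
        rw [e5]
        exact mul_le_mul e3 e4 (Real.exp_pos _).le (by positivity)
      have e7 := Real.pi_lt_four
      have e8 := Real.pi_pos
      have e9 : CB.nn (l * x) * 2 ^ s ≤ 1 / 16 := by
        rw [le_div_iff₀ (by positivity)] at e1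
        exact e1
      have e10 : 0 ≤ CB.nn (l * x) := CB.nint_nonneg _
      calc 2 * Real.pi * CB.nn (l * x) * n₀ * Real.exp q
          = 2 * Real.pi * (CB.nn (l * x) * (n₀ * Real.exp q)) := by ring
        _ ≤ 2 * Real.pi * (CB.nn (l * x) * 2 ^ s) := by
            apply mul_le_mul_of_nonneg_left _ (by positivity)
            exact mul_le_mul_of_nonneg_left e6 e10
        _ ≤ 2 * Real.pi * (1 / 16) := mul_le_mul_of_nonneg_left e9 (by positivity)
        _ ≤ 1 := by linarith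
    have hΛsum : ∑ l ∈ Λ, ‖ψ (l * x) - 1‖ ≤ Real.exp (-q) := by
      have hn₀0 : (0 : ℝ) < n₀ := by rw [hn₀R]; positivity
      calc ∑ l ∈ Λ, ‖ψ (l * x) - 1‖ ≤ ∑ _l ∈ Λ, Real.exp (-q) / n₀ := sum_le_sum hΛx
        _ = Λ.card * (Real.exp (-q) / n₀) := by rw [sum_const, nsmul_eq_mul]
        _ ≤ n₀ * (Real.exp (-q) / n₀) := mul_le_mul_of_nonneg_right hΛn (by positivity)
        _ = Real.exp (-q) := by field_simp
    -- the characters which are almost constant on the short progression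
    have hxm := hx₃
    unfold XX at hxm
    rw [mem_image] at hxm
    obtain ⟨m, hm, hmx⟩ := hxm
    rw [mem_box] at hm
    have hm' : ∀ i, (ρ : ℝ) * |(m i : ℝ)| ≤ L i := by
      intro i
      have h3 : |(m i : ℝ)| ≤ L₃ i := by exact_mod_cast hm i
      have h4 : (ρ : ℝ) * L₃ i ≤ L i := by exact_mod_cast hL₃1 i
      exact (mul_le_mul_of_nonneg_left h3 (Nat.cast_nonneg _)).trans h4
    have hρ1 : (1 : ℝ) ≤ ρ := by exact_mod_cast hρ0
    have hθx : ∀ θ : ZMod N, (1 / 2) ^ n₀ * (X.card : ℝ) ≤ ‖∑ y ∈ X, ψ (θ * y)‖ →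
        ‖ψ (θ * x) - 1‖ ≤ Real.exp (-q) := by
      intro θ hθ
      have h3 := shift_prog a L hinj θ m (fun i => by
        have h4 := hm' i
        have h5 : |(m i : ℝ)| ≤ 2 * L i := by
          have := abs_nonneg (m i : ℝ)
          nlinarith
        exact_mod_cast h5)
      rw [hmx, ← hX] at h3
      have h4 : ∑ i, |(m i : ℝ)| / (2 * L i + 1) ≤ d * (1 / (2 * ρ)) := by
        calc ∑ i, |(m i : ℝ)| / (2 * L i + 1) ≤ ∑ _i : Fin d, 1 / (2 * (ρ : ℝ)) := by
              refine sum_le_sum fun i _ => ?_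
              rw [div_le_div_iff₀ (by positivity) (by positivity)]
              have := hm' i
              linarith
          _ = d * (1 / (2 * ρ)) := by simp
      obtain ⟨E, hE⟩ : ∃ E : ℝ, E = ‖ψ (θ * x) - 1‖ := ⟨_, rfl⟩
      rw [← hE] at h3 ⊢
      have hE0 : 0 ≤ E := by rw [hE]; exact norm_nonneg _
      have h5 : (1 / 2) ^ n₀ * (X.card : ℝ) * E ≤ X.card * (d / ρ) := by
        calc (1 / 2) ^ n₀ * (X.card : ℝ) * E ≤ ‖∑ y ∈ X, ψ (θ * y)‖ * E :=
              mul_le_mul_of_nonneg_right hθ hE0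
          _ ≤ 2 * X.card * ∑ i, |(m i : ℝ)| / (2 * L i + 1) := h3
          _ ≤ 2 * X.card * (d * (1 / (2 * ρ))) := mul_le_mul_of_nonneg_left h4 (by positivity)
          _ = X.card * (d / ρ) := by field_simp
      have h6 : (1 / 2) ^ n₀ * E ≤ d / ρ := by
        have e1 : X.card * ((1 / 2) ^ n₀ * E) ≤ X.card * (d / (ρ : ℝ)) := by
          calc _ = (1 / 2) ^ n₀ * (X.card : ℝ) * E := by ring
            _ ≤ _ := h5
        exact le_of_mul_le_mul_left e1 hXpos
      have h7 : E ≤ d / 2 ^ n₀ := by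
        have e1 : (2 : ℝ) ^ n₀ * ((1 / 2) ^ n₀ * E) ≤ 2 ^ n₀ * (d / ρ) :=
          mul_le_mul_of_nonneg_left h6 (by positivity)
        have e2 : (2 : ℝ) ^ n₀ * ((1 / 2) ^ n₀ * E) = E := by
          rw [← mul_assoc, ← mul_pow]; norm_num
        have e3 : (2 : ℝ) ^ n₀ * (d / ρ) = d / 2 ^ n₀ := by
          rw [hρR]
          have : (4 : ℝ) ^ n₀ = 2 ^ n₀ * 2 ^ n₀ := by rw [← mul_pow]; norm_num
          rw [this]
          field_simp
        rw [e2, e3] at e1
        exact e1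
      refine h7.trans ?_
      rw [div_le_iff₀ (by positivity), Real.exp_neg, ← div_eq_inv_mul, le_div_iff₀ (Real.exp_pos _)]
      have e1 : (d : ℝ) ≤ 2 ^ q := hdq.trans (le_two_pow q)
      have e2 := exp_nat_le q
      have e3 : (2 : ℝ) ^ q * 4 ^ q ≤ 2 ^ n₀ := by
        have e4 : (2 : ℝ) ^ q * 4 ^ q = 2 ^ (3 * q) := by
          rw [← mul_pow, pow_mul]; norm_num
        rw [e4]
        apply pow_le_pow_right₀ (by norm_num)
        rw [hn₀]
        have : q ≤ q ^ 4 := Nat.le_self_pow (by norm_num) q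
        omega
      exact (mul_le_mul e1 e2 (Real.exp_pos _).le (by positivity)).trans e3
    -- the conclusion
    refine four_sum A T hAne hTne q hTG (2 * Real.exp (-q)) (by positivity) ?_ x ?_
    · have e1 : Real.exp q * (2 * Real.exp (-q) + 2 * (1 / 4) ^ q) ≤ 4 := by
        have e2 : Real.exp q * Real.exp (-q) = 1 := by rw [← Real.exp_add]; simp
        have e3 : Real.exp q * (1 / 4) ^ q ≤ 1 := by
          have e4 := exp_nat_le q
          have e5 : (4 : ℝ) ^ q * (1 / 4) ^ q = 1 := by rw [← mul_pow]; norm_num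
          exact (mul_le_mul_of_nonneg_right e4 (by positivity)).trans e5.le
        linarith
      calc ((A + A).card : ℝ) * (2 * Real.exp (-q) + 2 * (1 / 4) ^ q)
          ≤ (Q * A.card) * (2 * Real.exp (-q) + 2 * (1 / 4) ^ q) :=
            mul_le_mul_of_nonneg_right hAA (by positivity)
        _ = A.card / 32 * (Real.exp q * (2 * Real.exp (-q) + 2 * (1 / 4) ^ q)) := by rw [hQ]; ring
        _ ≤ A.card / 32 * 4 := mul_le_mul_of_nonneg_left e1 (by positivity)
        _ = A.card / 8 := by ring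
    · intro g hg
      obtain ⟨θ, hθ, hw⟩ := hΛ g hg
      have e1 := hw x
      have e2 := hθx θ hθ
      linarith

end Pool.Agent.Q248.BR
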