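import Mathlib
import Pool.Agent.H112R2.FinalGap
import Pool.Agent.TH858.GP.Coset
import Pool.Agent.TH858.GP.Dense2

/-!
# Sets of small doubling in a cyclic group are dense on a translate of a proper progression
-/

set_option autoImplicit false

namespace Pool.Agent.Q248.BR

open Finset H112
open scoped Pointwise
open Pool.Agent.TH858 Pool.Agent.TH858.GP

/-- `ev` of the progression with the extra generator. -/
lemma ev_cons {N k : ℕ} (g : ZMod N) (v : Fin k → ZMod N) (m : Fin (k + 1) → ℤ) :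
    ev (Fin.cons g v : Fin (k + 1) → ZMod N) m = (m 0 : ZMod N) * g + ev v (fun i => m i.succ) := by
  unfold ev
  rw [Fin.sum_univ_succ]
  simp only [Fin.cons_zero, Fin.cons_succ]

lemma mem_box_cons {k : ℕ} (l : ℕ) (L : Fin k → ℕ) (m : Fin (k + 1) → ℤ) :
    m ∈ box (Fin.cons l L : Fin (k + 1) → ℕ) ↔ |m 0| ≤ l ∧ (fun i => m i.succ) ∈ box L := by
  rw [mem_box, mem_box, Fin.forall_fin_succ]
  simp only [Fin.cons_zero, Fin.cons_succ]

lemma card_box_cons {k : ℕ} (l : ℕ) (L : Fin k → ℕ) :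
    (box (Fin.cons l L : Fin (k + 1) → ℕ)).card = (2 * l + 1) * ∏ i, (2 * L i + 1) := by
  rw [card_box, Fin.prod_univ_succ]
  simp only [Fin.cons_zero, Fin.cons_succ]

/-- **Structure of a set of small doubling in a cyclic group.** -/
theorem struct {N : ℕ} [NeZero N] {K : ℝ} (hK1 : 1 ≤ K) (A : Finset (ZMod N)) (hA : A.Nonempty)
    (hK : ((A + A).card : ℝ) ≤ K * A.card) (κ : ℝ) (hκ : κ = Real.log (2 * K)) :
    ∃ (d : ℕ) (a : Fin d → ZMod N) (L : Fin d → ℕ) (t : ZMod N) (B : Finset (ZMod N)),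
      (d : ℝ) ≤ 300 * κ + 1 ∧ Set.InjOn (ev a) (box L) ∧ B ⊆ A ∧ (∀ y ∈ B, y - t ∈ XX a L) ∧
      Real.exp (-(8000 * (κ * (1 + Real.log (1 + κ))))) * (XX a L).card ≤ B.card ∧
      (A.card : ℝ) ≤ 2 * Real.exp (14000 * (κ * (1 + Real.log (1 + κ)))) * (XX a L).card := by
  classical
  have hκlog2 : Real.log 2 ≤ κ := by
    rw [hκ]; exact Real.log_le_log (by norm_num) (by linarith)
  have hκ69 : (0.69 : ℝ) < κ := lt_of_lt_of_le H112.log_two_gt hκlog2
  have hlogκ : 0 ≤ Real.log (1 + κ) := Real.log_nonneg (by linarith)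
  obtain ⟨S, X, V, ρ, m, Nm, ψ, hfin, hV1, hsize, hρ0, hρ12, hX, hN, h1, h2, hm, hXV⟩ :=
    structure_thm hA hK hK1 hκ
  have hinj := gap_inj S Nm ψ hN h1
  have hLfin := gap_finite S hfin Nm ψ hN h1
  have hρ6 : ρ ≤ 1 / 6 := by linarith
  have hfinρ : (LL Nm ρ).Finite := hLfin.subset (gap_LL_mono Nm hρ6)
  obtain ⟨k, v', L, hkm, hlin, hgap, hcard⟩ := discrete_john Nm hρ0.le hfinρ
  -- the subgroup
  obtain ⟨h, hh⟩ : ∃ h : ℕ, h = Nat.card (ann S) := ⟨_, rfl⟩
  have hdvd0 : h ∣ N := by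
    rw [hh]
    have := AddSubgroup.card_addSubgroup_dvd_card (ann S)
    rwa [Nat.card_zmod] at this
  obtain ⟨M, hNM⟩ := hdvd0
  have hNpos := NeZero.pos N
  have hh0 : 0 < h := by
    rcases Nat.eq_zero_or_pos h with h0 | h0
    · rw [h0, zero_mul] at hNM; omega
    · exact h0
  have hM0 : 0 < M := by
    rcases Nat.eq_zero_or_pos M with h0 | h0
    · rw [h0, mul_zero] at hNM; omega
    · exact h0
  have hdvd : M ∣ N := ⟨h, by rw [hNM, mul_comm]⟩
  have hker : ∀ x : ZMod N, x ∈ ann S ↔ ZMod.castHom hdvd (ZMod M) x = 0 :=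
    fun x => mem_iff_cast (ann S) h M hh hNM hdvd x
  have hMmem : ((M : ℕ) : ZMod N) ∈ ann S := by
    rw [hker, map_natCast]
    exact ZMod.natCast_self M
  have hjM : ∀ j : ℤ, (j : ZMod N) * ((M : ℕ) : ZMod N) ∈ ann S := by
    intro j
    have := (ann S).zsmul_mem hMmem j
    rwa [zsmul_eq_mul] at this
  obtain ⟨ℓ, hℓ⟩ : ∃ ℓ : ℕ, ℓ = (h - 1) / 2 := ⟨_, rfl⟩
  have hℓ1 : 2 * ℓ + 1 ≤ h := by omega
  have hℓ2 : h ≤ 2 * (2 * ℓ + 1) := by omega
  -- the linear map
  have hψ : ∀ a : Fin k → ℤ, ψ (∑ i, a i • v' i) = ev (fun i => ψ (v' i)) a := by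
    intro a
    rw [map_sum]
    unfold ev
    refine Finset.sum_congr rfl fun i _ => ?_
    rw [map_zsmul, zsmul_eq_mul]
  have hlin' : ∀ a b : Fin k → ℤ, ∑ i, a i • v' i = ∑ i, b i • v' i → a = b := by
    intro a b hab
    have h0 : ∑ i, (a i - b i) • v' i = 0 := by
      simp only [sub_smul, Finset.sum_sub_distrib]
      rw [hab, sub_self]
    have := Fintype.linearIndependent_iff.1 hlin (fun i => a i - b i) h0
    funext i
    exact sub_eq_zero.1 (this i)
  obtain ⟨a, ha⟩ : ∃ a : Fin (k + 1) → ZMod N, a = Fin.cons ((M : ℕ) : ZMod N) (fun i => ψ (v' i)) := ⟨_, rfl⟩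
  obtain ⟨L', hL'⟩ : ∃ L' : Fin (k + 1) → ℕ, L' = Fin.cons ℓ L := ⟨_, rfl⟩
  -- properness
  have hproper : Set.InjOn (ev a) (box L') := by
    intro c hc c' hc' hcc
    rw [mem_coe, hL', mem_box_cons] at hc hc'
    obtain ⟨hc0, hc1⟩ := hc
    obtain ⟨hc0', hc1'⟩ := hc'
    rw [ha, ev_cons, ev_cons] at hcc
    rw [mem_box] at hc1 hc1'
    have e1 : ψ (∑ i, c i.succ • v' i) - ψ (∑ i, c' i.succ • v' i) ∈ ann S := by
      rw [hψ (fun i => c i.succ), hψ (fun i => c' i.succ)]
      have e2 : ev (fun i => ψ (v' i)) (fun i => c i.succ) - ev (fun i => ψ (v' i)) (fun i => c' i.succ) =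
          ((c' 0 - c 0 : ℤ) : ZMod N) * ((M : ℕ) : ZMod N) := by
        push_cast
        linear_combination hcc
      rw [e2]
      exact hjM _
    have e3 : (∑ i, c i.succ • v' i) = ∑ i, c' i.succ • v' i := by
      have f1 := hgap (fun i => c i.succ) hc1
      have f2 := hgap (fun i => c' i.succ) hc1'
      have f3 := LL_add Nm f1 f2
      have f4 : Nm (fun i => ((((∑ i, c i.succ • v' i) - ∑ i, c' i.succ • v' i) i : ℤ) : ℝ)) < 1 / 2 := by
        have : Nm (fun i => ((((∑ i, c i.succ • v' i) - ∑ i, c' i.succ • v' i) i : ℤ) : ℝ)) ≤ ρ + ρ := f3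
        linarith
      have f5 : ψ ((∑ i, c i.succ • v' i) - ∑ i, c' i.succ • v' i) ∈ ann S := by
        rw [map_sub]; exact e1
      have f6 := (h1 _ f4 0 le_rfl).1 (bohr_zero_of_ann f5 le_rfl)
      exact sub_eq_zero.1 (LL_zero hN f6)
    have e4 : (fun i : Fin k => c i.succ) = fun i : Fin k => c' i.succ := hlin' _ _ e3
    rw [e4] at hcc
    have e5 : ((c 0 - c' 0 : ℤ) : ZMod N) * ((M : ℕ) : ZMod N) = 0 := by
      push_cast
      linear_combination hcc
    have e6 : (((c 0 - c' 0) * (M : ℤ) : ℤ) : ZMod N) = 0 := by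
      push_cast
      push_cast at e5
      exact e5
    rw [ZMod.intCast_zmod_eq_zero_iff_dvd] at e6
    have e7 : (h : ℤ) * M ∣ (c 0 - c' 0) * M := by
      have : (N : ℤ) = (h : ℤ) * M := by rw [hNM]; push_cast; ring
      rw [← this]
      exact e6
    have e8 : (h : ℤ) ∣ c 0 - c' 0 := by
      have : (M : ℤ) ≠ 0 := by exact_mod_cast hM0.ne'
      exact Int.dvd_of_mul_dvd_mul_right this e7
    have e9 : c 0 - c' 0 = 0 := by
      refine Int.eq_zero_of_abs_lt_dvd e8 ?_
      have g1 := abs_sub (c 0) (c' 0)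
      have g2 : (2 * ℓ + 1 : ℤ) ≤ h := by exact_mod_cast hℓ1
      linarith
    funext i
    refine Fin.cases ?_ (fun j => ?_) i
    · exact sub_eq_zero.1 e9
    · exact congrFun e4 j
  have hXX : (XX a L').card = (2 * ℓ + 1) * ∏ i, (2 * L i + 1) := by
    unfold XX
    rw [card_image_of_injOn hproper, hL', card_box_cons]
  -- the progression is contained in the Bohr set
  have hsubB : ∀ z ∈ XX a L', z ∈ bohr S ρ := by
    intro z hz
    unfold XX at hz
    rw [mem_image] at hz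
    obtain ⟨c, hc, rfl⟩ := hz
    rw [hL', mem_box_cons] at hc
    obtain ⟨hc0, hc1⟩ := hc
    rw [mem_box] at hc1
    rw [ha, ev_cons, add_comm, ← hψ (fun i => c i.succ)]
    refine bohr_add_ann ?_ (hjM _)
    exact gap_map_mem S Nm ψ h1 hρ0.le hρ6 (hgap _ hc1)
  -- the Bohr sets as finite sets
  obtain ⟨B₀, hB₀⟩ : ∃ B₀ : Finset (ZMod N), B₀ = univ.filter fun x => x ∈ bohr S ρ := ⟨_, rfl⟩
  obtain ⟨B₁, hB₁⟩ : ∃ B₁ : Finset (ZMod N), B₁ = univ.filter fun x => x ∈ bohr S (1 / 6) := ⟨_, rfl⟩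
  have hB₀n : B₀.card = (bohr S ρ).ncard := by
    have : (B₀ : Set (ZMod N)) = bohr S ρ := by rw [hB₀]; ext x; simp
    rw [← this, Set.ncard_coe_finset]
  have hB₁n : B₁.card = (bohr S (1 / 6)).ncard := by
    have : (B₁ : Set (ZMod N)) = bohr S (1 / 6) := by rw [hB₁]; ext x; simp
    rw [← this, Set.ncard_coe_finset]
  -- pigeonhole
  obtain ⟨x, hxX, hx⟩ := cover_pigeonhole hA (fun x a => a - x ∈ bohr S ρ) hX
  obtain ⟨A₁, hA₁⟩ : ∃ A₁ : Finset (ZMod N), A₁ = A.filter fun a => a - x ∈ bohr S ρ := ⟨_, rfl⟩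
  rw [← hA₁] at hx
  have hApos : 0 < A.card := hA.card_pos
  have hAposR : (0 : ℝ) < A.card := by exact_mod_cast hApos
  have hA₁ne : A₁.Nonempty := by
    rw [← card_pos]
    by_contra hcon
    have : A₁.card = 0 := by omega
    rw [this, mul_zero] at hx
    omega
  have hXpos : (0 : ℝ) < X.card := by exact_mod_cast card_pos.2 ⟨x, hxX⟩
  have hV0 : (0 : ℝ) < V := by linarith
  have hXXne : (XX a L').Nonempty := by
    have : (0 : Fin (k + 1) → ℤ) ∈ box L' := by rw [mem_box]; intro i; simp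
    exact ⟨_, mem_image_of_mem (ev a) this⟩
  have hXXpos : (0 : ℝ) < (XX a L').card := by exact_mod_cast hXXne.card_pos
  have hdiff : ((A₁ - XX a L').card : ℝ) ≤ V * A.card := by
    refine le_trans ?_ hsize
    rw [← hB₁n]
    have e1 : A₁ - XX a L' ⊆ B₁.image fun z => x + z := by
      intro z hz
      rw [mem_sub] at hz
      obtain ⟨y, hy, w, hw, rfl⟩ := hz
      rw [hA₁, mem_filter] at hy
      rw [mem_image]
      refine ⟨(y - x) - w, ?_, by ring⟩
      rw [hB₁, mem_filter]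
      refine ⟨mem_univ _, ?_⟩
      have e2 : y - x + (-w) ∈ bohr S (ρ + ρ) := by
        refine bohr_add hy.2 ?_
        intro γ hγ
        rw [map_neg, norm_neg]
        exact hsubB w hw γ hγ
      rw [sub_eq_add_neg]
      exact main_bohr_mono (by linarith) e2
    have e3 := (card_le_card e1).trans card_image_le
    exact_mod_cast e3
  obtain ⟨u, hu⟩ := exists_dense_translate A₁ (XX a L') (V * A.card) (by positivity) hA₁ne hXXne hdiff
  refine ⟨k + 1, a, L', u, A₁.filter fun y => y - u ∈ XX a L', ?_, hproper, ?_, ?_, ?_, ?_⟩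
  · push_cast
    have : (k : ℝ) ≤ m := by exact_mod_cast hkm
    linarith
  · refine (filter_subset _ _).trans ?_
    rw [hA₁]
    exact filter_subset _ _
  · intro y hy
    exact (mem_filter.1 hy).2
  · obtain ⟨F, hF⟩ : ∃ F : ℝ, F = ((A₁.filter fun y => y - u ∈ XX a L').card : ℝ) := ⟨_, rfl⟩
    rw [← hF] at hu ⊢
    have hF0 : 0 ≤ F := by rw [hF]; positivity
    have hxR : (A.card : ℝ) ≤ X.card * A₁.card := by exact_mod_cast hx
    have e1 : (A.card : ℝ) * (XX a L').card ≤ A.card * ((X.card * V) * F) := by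
      calc (A.card : ℝ) * (XX a L').card ≤ (X.card * A₁.card) * (XX a L').card :=
            mul_le_mul_of_nonneg_right hxR hXXpos.le
        _ = X.card * (A₁.card * (XX a L').card) := by ring
        _ ≤ X.card * (V * A.card * F) := mul_le_mul_of_nonneg_left hu hXpos.le
        _ = _ := by ring
    have e2 : ((XX a L').card : ℝ) ≤ (X.card * V) * F := le_of_mul_le_mul_left e1 hAposR
    have e3 : ((XX a L').card : ℝ) ≤ Real.exp (8000 * κ * (1 + Real.log (1 + κ))) * F :=
      e2.trans (mul_le_mul_of_nonneg_right hXV hF0)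
    rw [Real.exp_neg, inv_mul_le_iff₀ (Real.exp_pos _)]
    have e4 : 8000 * (κ * (1 + Real.log (1 + κ))) = 8000 * κ * (1 + Real.log (1 + κ)) := by ring
    rw [e4]
    exact e3
  · have hXle : (X.card : ℝ) ≤ Real.exp (8000 * κ * (1 + Real.log (1 + κ))) :=
      (le_mul_of_one_le_right hXpos.le hV1).trans hXV
    have hAB : (A₁.card : ℝ) ≤ B₀.card := by
      have e1 : A₁ ⊆ B₀.image fun z => x + z := by
        intro z hz
        rw [hA₁, mem_filter] at hz
        rw [mem_image]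
        refine ⟨z - x, ?_, by ring⟩
        rw [hB₀, mem_filter]
        exact ⟨mem_univ _, hz.2⟩
      exact_mod_cast (card_le_card e1).trans card_image_le
    have hB₀le : (B₀.card : ℝ) ≤ (4 * (k : ℝ) ^ 3) ^ k * (2 * (XX a L').card) := by
      have e1 := card_bohr_le hfin hfinρ h2
      rw [← hB₀n, ← hh] at e1
      have e2 : B₀.card ≤ (4 * k ^ 3) ^ k * (2 * (XX a L').card) := by
        calc B₀.card ≤ (LL Nm ρ).ncard * h := e1
          _ ≤ ((4 * k ^ 3) ^ k * ∏ i, (2 * L i + 1)) * (2 * (2 * ℓ + 1)) := Nat.mul_le_mul hcard hℓ2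
          _ = _ := by rw [hXX]; ring
      exact_mod_cast e2
    have h4 : (4 * (k : ℝ) ^ 3) ^ k ≤
        Real.exp ((300 * κ) * (20 * (1 + Real.log (1 + κ)))) := by
      have e1 : (4 * (k : ℝ) ^ 3) ^ k ≤ (12 * (k : ℝ) ^ 3) ^ k := by
        apply pow_le_pow_left₀ (by positivity)
        have : (0 : ℝ) ≤ (k : ℝ) ^ 3 := by positivity
        linarith
      refine e1.trans ((gap_pow_le hkm).trans ?_)
      rcases Nat.eq_zero_or_pos m with h0 | hpos
      · subst h0
        rw [pow_zero]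
        exact Real.one_le_exp (by positivity)
      · have hm1 : (0 : ℝ) < m := by exact_mod_cast hpos
        exact pow_le_exp (by positivity) (log_12m_le hκ69 hm hpos) hm (by positivity)
    have hxR : (A.card : ℝ) ≤ X.card * A₁.card := by exact_mod_cast hx
    calc (A.card : ℝ) ≤ X.card * A₁.card := hxR
      _ ≤ Real.exp (8000 * κ * (1 + Real.log (1 + κ))) * ((4 * (k : ℝ) ^ 3) ^ k * (2 * (XX a L').card)) :=
          mul_le_mul hXle (hAB.trans hB₀le) (Nat.cast_nonneg _) (Real.exp_pos _).le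
      _ ≤ Real.exp (8000 * κ * (1 + Real.log (1 + κ))) *
            (Real.exp ((300 * κ) * (20 * (1 + Real.log (1 + κ)))) * (2 * (XX a L').card)) := by
          apply mul_le_mul_of_nonneg_left _ (Real.exp_pos _).le
          exact mul_le_mul_of_nonneg_right h4 (by positivity)
      _ = 2 * (Real.exp (8000 * κ * (1 + Real.log (1 + κ))) *
            Real.exp ((300 * κ) * (20 * (1 + Real.log (1 + κ))))) * (XX a L').card := by ring
      _ = 2 * Real.exp (14000 * (κ * (1 + Real.log (1 + κ)))) * (XX a L').card := by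
          rw [← Real.exp_add]
          congr 3
          ring

end Pool.Agent.Q248.BR
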